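import Pool.Agent.N842.HS.GenP

/-!
# Sums over prime numbers near the edge of absolute convergence
-/

set_option autoImplicit false

namespace Pool.Agent.N842.TP

open Finset
open Pool.Agent.TH894.NF (pr pr_prime)
open Pool.Agent.N842.HS (pr_mono pi_pr)

lemma pr_two (j : ℕ) : j + 2 ≤ pr j := by
  induction j with
  | zero => exact (pr_prime 0).two_le
  | succ j ih =>
    have := pr_mono (Nat.lt_succ_self j)
    simp only [Nat.succ_eq_add_one] at this
    omega

lemma pr_pos (j : ℕ) : (0 : ℝ) < pr j := by exact_mod_cast (pr_prime j).pos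

lemma log_pr_pos (j : ℕ) : 0 < Real.log (pr j) := Real.log_pos (by exact_mod_cast (pr_prime j).one_lt)

/-- Chebyshev's lower bound for the prime numbers -/
lemma pr_ge (j : ℕ) : ((j : ℝ) + 1) * Real.log (pr j) ≤ 5 * pr j := by
  have hp := pr_pos j
  have hp1 : (1 : ℝ) < pr j := by exact_mod_cast (pr_prime j).one_lt
  have h := Chebyshev.pi_le_log4_mul_div hp1
  rw [Nat.floor_natCast, pi_pr] at h
  push_cast at h
  have hs : 0 < Real.sqrt (pr j) := Real.sqrt_pos.2 hp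
  have hl : Real.log (Real.sqrt (pr j)) = Real.log (pr j) / 2 := by rw [Real.log_sqrt hp.le]
  have hlp := log_pr_pos j
  rw [hl] at h
  have h4 : Real.log 4 ≤ 1.4 := by
    have : (4 : ℝ) = 2 ^ 2 := by norm_num
    rw [this, Real.log_pow]
    have := Real.log_two_lt_d9
    push_cast
    linarith
  have h2 : Real.log (pr j) ≤ 2 * Real.sqrt (pr j) := by
    have h3 := Real.log_le_sub_one_of_pos hs
    rw [hl] at h3
    linarith
  have h5 : ((j : ℝ) + 1) * Real.log (pr j) ≤ 2 * Real.log 4 * pr j + Real.sqrt (pr j) * Real.log (pr j) := by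
    have h6 := mul_le_mul_of_nonneg_right h hlp.le
    refine h6.trans (le_of_eq ?_)
    field_simp
  have h7 : Real.sqrt (pr j) * Real.log (pr j) ≤ 2 * pr j := by
    calc Real.sqrt (pr j) * Real.log (pr j) ≤ Real.sqrt (pr j) * (2 * Real.sqrt (pr j)) := mul_le_mul_of_nonneg_left h2 hs.le
      _ = 2 * (Real.sqrt (pr j) * Real.sqrt (pr j)) := by ring
      _ = 2 * pr j := by rw [Real.mul_self_sqrt hp.le]
  nlinarith

/-- differences of powers -/
lemma diff_rpow {x σ s s' : ℝ} (hx : 1 ≤ x) (hs : σ ≤ s) (hs' : σ ≤ s') :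
    |x ^ (-s) - x ^ (-s')| ≤ |s - s'| * (Real.log x * x ^ (-σ)) := by
  have hx0 : 0 < x := by linarith
  have hl : 0 ≤ Real.log x := Real.log_nonneg hx
  have key : ∀ a b : ℝ, σ ≤ a → a ≤ b → |x ^ (-a) - x ^ (-b)| ≤ |a - b| * (Real.log x * x ^ (-σ)) := by
    intro a b ha hab
    have h1 : x ^ (-b) ≤ x ^ (-a) := Real.rpow_le_rpow_of_exponent_le hx (by linarith)
    rw [abs_of_nonneg (by linarith), abs_of_nonpos (by linarith)]
    have h2 : x ^ (-b) = x ^ (-a) * x ^ (-(b - a)) := by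
      rw [← Real.rpow_add hx0]
      congr 1
      ring
    have h3 : 1 - (b - a) * Real.log x ≤ x ^ (-(b - a)) := by
      rw [Real.rpow_def_of_pos hx0]
      have := Real.add_one_le_exp (Real.log x * -(b - a))
      linarith
    have h4 : 0 < x ^ (-a) := by positivity
    have h5 : x ^ (-a) ≤ x ^ (-σ) := Real.rpow_le_rpow_of_exponent_le hx (by linarith)
    have h6 : 0 ≤ (b - a) * Real.log x := mul_nonneg (by linarith) hl
    calc x ^ (-a) - x ^ (-b) = x ^ (-a) * (1 - x ^ (-(b - a))) := by rw [h2]; ring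
      _ ≤ x ^ (-a) * ((b - a) * Real.log x) := mul_le_mul_of_nonneg_left (by linarith) h4.le
      _ ≤ x ^ (-σ) * ((b - a) * Real.log x) := mul_le_mul_of_nonneg_right h5 h6
      _ = -(a - b) * (Real.log x * x ^ (-σ)) := by ring
  rcases le_total s s' with h | h
  · exact key s s' hs h
  · rw [abs_sub_comm, abs_sub_comm s s']
    exact key s' s hs' h

/-- the sum of `log p / p` -/
lemma mertens (y : ℕ) : ∑ j ∈ range y, Real.log (pr j) / pr j ≤ 5 * (1 + Real.log y) := by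
  have h1 : ∀ j ∈ range y, Real.log (pr j) / pr j ≤ 5 * (1 / ((j : ℝ) + 1)) := by
    intro j _
    have h2 := pr_ge j
    have hp := pr_pos j
    rw [div_le_iff₀ hp, mul_one_div, div_mul_eq_mul_div, le_div_iff₀ (by positivity)]
    linarith
  refine (sum_le_sum h1).trans ?_
  rw [← mul_sum]
  have h3 := harmonic_le_one_add_log y
  have h4 : ((harmonic y : ℚ) : ℝ) = ∑ j ∈ range y, 1 / ((j : ℝ) + 1) := by
    unfold harmonic
    push_cast
    exact sum_congr rfl fun j _ => (one_div _).symm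
  rw [h4] at h3
  linarith

/-- the tails -/
lemma tail {s : ℝ} (hs : 1 < s) (hs2 : s ≤ 2) (u : ℕ) (hu : 3 ≤ u) (n : ℕ) :
    ∑ j ∈ Ico u n, (pr j : ℝ) ^ (-s) ≤ 25 * ((u : ℝ) ^ (1 - s) / ((s - 1) * Real.log u)) := by
  have hu0 : (0 : ℝ) < u := by exact_mod_cast (by omega : 0 < u)
  have hlu : 1 ≤ Real.log u := by
    have h3 : (Real.exp 1) ≤ u := by
      have := Real.exp_one_lt_d9
      have h4 : (3 : ℝ) ≤ u := by exact_mod_cast hu
      linarith
    exact (Real.le_log_iff_exp_le hu0).2 h3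
  have hterm : ∀ j : ℕ, u ≤ j → (pr j : ℝ) ^ (-s) ≤ 25 / ((s - 1) * Real.log u) * ((j : ℝ) ^ (1 - s) - ((j : ℝ) + 1) ^ (1 - s)) := by
    intro j hj
    have hj0 : (0 : ℝ) < j := by exact_mod_cast (by omega : 0 < j)
    have hj1 : (0 : ℝ) < (j : ℝ) + 1 := by positivity
    have hp := pr_pos j
    have h1 := pr_ge j
    have h2 : Real.log u ≤ Real.log (pr j) := by
      apply Real.log_le_log hu0
      have := pr_two j
      exact_mod_cast (by omega : u ≤ pr j)
    have h3 : ((j : ℝ) + 1) * Real.log u / 5 ≤ pr j := by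
      have := mul_le_mul_of_nonneg_left h2 hj1.le
      linarith
    have h4 : 0 < ((j : ℝ) + 1) * Real.log u / 5 := by positivity
    have h5 : (pr j : ℝ) ^ (-s) ≤ (((j : ℝ) + 1) * Real.log u / 5) ^ (-s) :=
      Real.rpow_le_rpow_of_nonpos h4 h3 (by linarith)
    have h6 : (((j : ℝ) + 1) * Real.log u / 5) ^ (-s) = ((j : ℝ) + 1) ^ (-s) * (Real.log u) ^ (-s) * 5 ^ s := by
      rw [Real.div_rpow (by positivity) (by norm_num), Real.mul_rpow hj1.le (by linarith), Real.rpow_neg (by norm_num : (0 : ℝ) ≤ 5), div_inv_eq_mul]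
    have h7 : (5 : ℝ) ^ s ≤ 25 := by
      have : (5 : ℝ) ^ s ≤ 5 ^ (2 : ℝ) := Real.rpow_le_rpow_of_exponent_le (by norm_num) hs2
      norm_num at this
      exact this
    have h8 : (Real.log u) ^ (-s) ≤ 1 / Real.log u := by
      have : (Real.log u) ^ (-s) ≤ (Real.log u) ^ (-1 : ℝ) := Real.rpow_le_rpow_of_exponent_le hlu (by linarith)
      rwa [Real.rpow_neg_one, ← one_div] at this
    have h9 : ((j : ℝ) + 1) ^ (-s) * (s - 1) ≤ (j : ℝ) ^ (1 - s) - ((j : ℝ) + 1) ^ (1 - s) := by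
      have e1 : (j : ℝ) ^ (1 - s) = ((j : ℝ) + 1) ^ (1 - s) * ((j : ℝ) / ((j : ℝ) + 1)) ^ (1 - s) := by
        rw [← Real.mul_rpow hj1.le (by positivity)]
        congr 1
        field_simp
      have hq : 0 < (j : ℝ) / ((j : ℝ) + 1) := by positivity
      have e2 : 1 + (s - 1) / ((j : ℝ) + 1) ≤ ((j : ℝ) / ((j : ℝ) + 1)) ^ (1 - s) := by
        rw [Real.rpow_def_of_pos hq]
        have e3 := Real.log_le_sub_one_of_pos hq
        have e4 : (j : ℝ) / ((j : ℝ) + 1) - 1 = - (1 / ((j : ℝ) + 1)) := by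
          field_simp
          ring
        rw [e4] at e3
        have e5 : (s - 1) / ((j : ℝ) + 1) ≤ Real.log ((j : ℝ) / ((j : ℝ) + 1)) * (1 - s) := by
          have e6 := mul_le_mul_of_nonneg_left e3 (show 0 ≤ s - 1 by linarith)
          have e7 : (s - 1) / ((j : ℝ) + 1) = -((s - 1) * -(1 / ((j : ℝ) + 1))) := by ring
          rw [e7]
          linarith
        have e8 := Real.add_one_le_exp (Real.log ((j : ℝ) / ((j : ℝ) + 1)) * (1 - s))
        linarith
      have e9 : ((j : ℝ) + 1) ^ (-s) = ((j : ℝ) + 1) ^ (1 - s) / ((j : ℝ) + 1) := by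
        rw [show -s = (1 - s) - 1 by ring, Real.rpow_sub_one hj1.ne']
      have e10 : 0 < ((j : ℝ) + 1) ^ (1 - s) := by positivity
      rw [e1, e9]
      have e11 := mul_le_mul_of_nonneg_left e2 e10.le
      have e12 : ((j : ℝ) + 1) ^ (1 - s) / ((j : ℝ) + 1) * (s - 1) = ((j : ℝ) + 1) ^ (1 - s) * ((s - 1) / ((j : ℝ) + 1)) := by ring
      rw [e12]
      linarith
    have hs0 : 0 < s - 1 := by linarith
    have h10 : 0 < ((j : ℝ) + 1) ^ (-s) := by positivity
    calc (pr j : ℝ) ^ (-s) ≤ ((j : ℝ) + 1) ^ (-s) * (Real.log u) ^ (-s) * 5 ^ s := h5.trans (le_of_eq h6)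
      _ ≤ ((j : ℝ) + 1) ^ (-s) * (1 / Real.log u) * 25 := by
          apply mul_le_mul (mul_le_mul_of_nonneg_left h8 h10.le) h7 (by positivity)
          have : 0 ≤ 1 / Real.log u := by positivity
          positivity
      _ = 25 / ((s - 1) * Real.log u) * (((j : ℝ) + 1) ^ (-s) * (s - 1)) := by
          field_simp
      _ ≤ _ := by
          apply mul_le_mul_of_nonneg_left h9
          positivity
  have hsum : ∀ n : ℕ, u ≤ n → ∑ j ∈ Ico u n, (pr j : ℝ) ^ (-s) ≤ 25 / ((s - 1) * Real.log u) * ((u : ℝ) ^ (1 - s) - (n : ℝ) ^ (1 - s)) := by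
    intro n hn
    induction n, hn using Nat.le_induction with
    | base => simp
    | succ n hn ih =>
      rw [sum_Ico_succ_top hn]
      have := hterm n hn
      push_cast
      linarith
  have hc : 0 ≤ 25 / ((s - 1) * Real.log u) := by
    have : 0 < s - 1 := by linarith
    positivity
  by_cases hn : u ≤ n
  · refine (hsum n hn).trans ?_
    have h1 : 0 ≤ (n : ℝ) ^ (1 - s) := by positivity
    calc 25 / ((s - 1) * Real.log u) * ((u : ℝ) ^ (1 - s) - (n : ℝ) ^ (1 - s)) ≤ 25 / ((s - 1) * Real.log u) * (u : ℝ) ^ (1 - s) :=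
          mul_le_mul_of_nonneg_left (by linarith) hc
      _ = _ := by ring
  · rw [Ico_eq_empty (by omega), sum_empty]
    have : 0 < s - 1 := by linarith
    positivity

/-- summation by parts -/
lemma parts (a S : ℕ → ℝ) (y n : ℕ) (hyn : y ≤ n) : ∑ j ∈ Ico y n, (S (j + 1) - S j) * a j =
    S n * a n - S y * a y + ∑ j ∈ Ico y n, S (j + 1) * (a j - a (j + 1)) := by
  induction n, hyn using Nat.le_induction with
  | base => simp
  | succ n hn ih =>
    rw [sum_Ico_succ_top hn, sum_Ico_succ_top hn, ih]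
    ring

lemma step {β : ℝ} (hβ0 : 0 < β) (hβ1 : β < 1) (j : ℕ) (hj : 1 ≤ j) :
    (((j : ℝ) + 1) ^ β - (j : ℝ) ^ β) * (1 / ((j : ℝ) + 1)) ≤ β / (1 - β) * ((j : ℝ) ^ (β - 1) - ((j : ℝ) + 1) ^ (β - 1)) := by
  have hj0 : (0 : ℝ) < j := by exact_mod_cast hj
  have hj1 : (0 : ℝ) < (j : ℝ) + 1 := by positivity
  have h1 : ((j : ℝ) + 1) ^ β ≤ (j : ℝ) ^ β * (1 + β / j) := by
    have e1 : ((j : ℝ) + 1) ^ β = (j : ℝ) ^ β * (1 + 1 / j) ^ β := by
      rw [← Real.mul_rpow hj0.le (by positivity)]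
      congr 1
      field_simp
    rw [e1]
    apply mul_le_mul_of_nonneg_left _ (by positivity)
    have e2 := rpow_one_add_le_one_add_mul_self (s := 1 / (j : ℝ)) (p := β) (by
      have : 0 ≤ 1 / (j : ℝ) := by positivity
      linarith) hβ0.le hβ1.le
    refine e2.trans (le_of_eq ?_)
    ring
  have h2 : ((j : ℝ) + 1) ^ (β - 1) ≤ (j : ℝ) ^ (β - 1) * (1 - (1 - β) / ((j : ℝ) + 1)) := by
    have e1 : ((j : ℝ) + 1) ^ (β - 1) = (j : ℝ) ^ (β - 1) * (1 + -(1 / ((j : ℝ) + 1))) ^ (1 - β) := by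
      have e3 : 1 + -(1 / ((j : ℝ) + 1)) = (j : ℝ) / ((j : ℝ) + 1) := by
        field_simp
        ring
      rw [e3, Real.div_rpow hj0.le hj1.le, show β - 1 = -(1 - β) by ring, Real.rpow_neg hj0.le, Real.rpow_neg hj1.le]
      have : 0 < (j : ℝ) ^ (1 - β) := by positivity
      field_simp
    rw [e1]
    apply mul_le_mul_of_nonneg_left _ (by positivity)
    have e2 := rpow_one_add_le_one_add_mul_self (s := -(1 / ((j : ℝ) + 1))) (p := 1 - β) (by
      have : 1 / ((j : ℝ) + 1) ≤ 1 := by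
        rw [div_le_one hj1]
        linarith
      linarith) (by linarith) (by linarith)
    refine e2.trans (le_of_eq ?_)
    ring
  have h3 : (j : ℝ) ^ β = (j : ℝ) ^ (β - 1) * j := by
    rw [Real.rpow_sub_one hj0.ne']
    field_simp
  have hb : 0 < 1 - β := by linarith
  calc (((j : ℝ) + 1) ^ β - (j : ℝ) ^ β) * (1 / ((j : ℝ) + 1)) ≤ ((j : ℝ) ^ β * (β / j)) * (1 / ((j : ℝ) + 1)) := by
        apply mul_le_mul_of_nonneg_right _ (by positivity)
        linarith
    _ = β / (1 - β) * ((j : ℝ) ^ (β - 1) * ((1 - β) / ((j : ℝ) + 1))) := by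
        rw [h3]
        field_simp
    _ ≤ _ := by
        apply mul_le_mul_of_nonneg_left _ (by positivity)
        linarith

/-- **summation by parts over the prime numbers** -/
lemma abel {β : ℝ} (hβ0 : 0 < β) (hβ1 : β < 1) (E : ℕ → ℝ) (C₁ : ℝ) (hC₁ : 0 ≤ C₁) (y n : ℕ) (hy : 1 ≤ y)
    (hE : ∀ u, y ≤ u → u ≤ n → |∑ j ∈ range u, E j| ≤ C₁ * (u : ℝ) ^ β) {s : ℝ} (hs : 1 ≤ s) :
    |∑ j ∈ Ico y n, E j * (pr j : ℝ) ^ (-s)| ≤ (3 + β / (1 - β)) * C₁ * (y : ℝ) ^ (β - 1) := by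
  have hy0 : (0 : ℝ) < y := by exact_mod_cast hy
  have hb : 0 < 1 - β := by linarith
  have hyβ : 0 < (y : ℝ) ^ (β - 1) := by positivity
  have hq : 0 ≤ β / (1 - β) := by positivity
  by_cases hyn : y ≤ n
  · obtain ⟨a, ha⟩ : ∃ a : ℕ → ℝ, a = fun j => (pr j : ℝ) ^ (-s) := ⟨_, rfl⟩
    obtain ⟨S, hS⟩ : ∃ S : ℕ → ℝ, S = fun u => ∑ j ∈ range u, E j := ⟨_, rfl⟩
    have ha0 : ∀ j, 0 ≤ a j := fun j => by
      rw [ha]
      have := pr_pos j
      positivity
    have ha1 : ∀ j, a j ≤ 1 / ((j : ℝ) + 1) := by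
      intro j
      have h1 : ((j : ℝ) + 1) ≤ pr j := by
        have := pr_two j
        exact_mod_cast (by omega : j + 1 ≤ pr j)
      have h2 : (0 : ℝ) < (j : ℝ) + 1 := by positivity
      rw [ha]
      calc (pr j : ℝ) ^ (-s) ≤ (pr j : ℝ) ^ (-1 : ℝ) :=
            Real.rpow_le_rpow_of_exponent_le (by have := pr_two j; exact_mod_cast (by omega : 1 ≤ pr j)) (by linarith)
        _ = 1 / (pr j : ℝ) := by rw [Real.rpow_neg_one, one_div]
        _ ≤ _ := one_div_le_one_div_of_le h2 h1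
    have ha2 : ∀ j, a (j + 1) ≤ a j := by
      intro j
      rw [ha]
      apply Real.rpow_le_rpow_of_nonpos (pr_pos j) _ (by linarith)
      exact_mod_cast (pr_mono (Nat.lt_succ_self j)).le
    have hmono : ∀ u : ℕ, y ≤ u → (u : ℝ) ^ β * a u ≤ (y : ℝ) ^ (β - 1) := by
      intro u hu
      have hu0 : (0 : ℝ) < u := by exact_mod_cast (by omega : 0 < u)
      have h1 : (u : ℝ) ^ β * a u ≤ (u : ℝ) ^ β * (1 / (u : ℝ)) := by
        apply mul_le_mul_of_nonneg_left _ (by positivity)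
        refine (ha1 u).trans (one_div_le_one_div_of_le hu0 (by linarith))
      refine h1.trans ?_
      rw [mul_one_div, ← Real.rpow_sub_one hu0.ne']
      exact Real.rpow_le_rpow_of_nonpos hy0 (by exact_mod_cast hu) (by linarith)
    have e1 : ∑ j ∈ Ico y n, E j * (pr j : ℝ) ^ (-s) = S n * a n - S y * a y + ∑ j ∈ Ico y n, S (j + 1) * (a j - a (j + 1)) := by
      rw [← parts a S y n hyn]
      refine sum_congr rfl fun j _ => ?_
      rw [hS, ha]
      beta_reduce
      rw [sum_range_succ]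
      ring
    have hSn : |S n| ≤ C₁ * (n : ℝ) ^ β := by rw [hS]; exact hE n hyn le_rfl
    have hSy : |S y| ≤ C₁ * (y : ℝ) ^ β := by rw [hS]; exact hE y le_rfl hyn
    have b1 : |S n * a n| ≤ C₁ * (y : ℝ) ^ (β - 1) := by
      rw [abs_mul, abs_of_nonneg (ha0 n)]
      calc |S n| * a n ≤ C₁ * (n : ℝ) ^ β * a n := mul_le_mul_of_nonneg_right hSn (ha0 n)
        _ = C₁ * ((n : ℝ) ^ β * a n) := by ring
        _ ≤ _ := mul_le_mul_of_nonneg_left (hmono n hyn) hC₁
    have b2 : |S y * a y| ≤ C₁ * (y : ℝ) ^ (β - 1) := by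
      rw [abs_mul, abs_of_nonneg (ha0 y)]
      calc |S y| * a y ≤ C₁ * (y : ℝ) ^ β * a y := mul_le_mul_of_nonneg_right hSy (ha0 y)
        _ = C₁ * ((y : ℝ) ^ β * a y) := by ring
        _ ≤ _ := mul_le_mul_of_nonneg_left (hmono y le_rfl) hC₁
    have b3 : |∑ j ∈ Ico y n, S (j + 1) * (a j - a (j + 1))| ≤ C₁ * ∑ j ∈ Ico y n, ((j + 1 : ℕ) : ℝ) ^ β * (a j - a (j + 1)) := by
      refine (abs_sum_le_sum_abs _ _).trans ?_
      rw [mul_sum]
      refine sum_le_sum fun j hj => ?_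
      rw [mem_Ico] at hj
      have h1 : 0 ≤ a j - a (j + 1) := by
        have := ha2 j
        linarith
      rw [abs_mul, abs_of_nonneg h1, ← mul_assoc]
      apply mul_le_mul_of_nonneg_right _ h1
      rw [hS]
      exact hE (j + 1) (by omega) (by omega)
    have b4 := parts a (fun u : ℕ => (u : ℝ) ^ β) y n hyn
    have b5 : ∑ j ∈ Ico y n, (((j + 1 : ℕ) : ℝ) ^ β - (j : ℝ) ^ β) * a j ≤ β / (1 - β) * (y : ℝ) ^ (β - 1) := by
      have h1 : ∀ j ∈ Ico y n, (((j + 1 : ℕ) : ℝ) ^ β - (j : ℝ) ^ β) * a j ≤ β / (1 - β) * ((j : ℝ) ^ (β - 1) - ((j : ℝ) + 1) ^ (β - 1)) := by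
        intro j hj
        rw [mem_Ico] at hj
        refine le_trans ?_ (step hβ0 hβ1 j (by omega))
        push_cast
        apply mul_le_mul_of_nonneg_left (ha1 j)
        have : (j : ℝ) ^ β ≤ ((j : ℝ) + 1) ^ β := Real.rpow_le_rpow (Nat.cast_nonneg _) (by linarith) hβ0.le
        linarith
      refine (sum_le_sum h1).trans ?_
      rw [← mul_sum]
      apply mul_le_mul_of_nonneg_left _ hq
      have h2 : ∀ n : ℕ, y ≤ n → ∑ j ∈ Ico y n, ((j : ℝ) ^ (β - 1) - ((j : ℝ) + 1) ^ (β - 1)) = (y : ℝ) ^ (β - 1) - (n : ℝ) ^ (β - 1) := by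
        intro n hn
        induction n, hn using Nat.le_induction with
        | base => simp
        | succ n hn ih =>
          rw [sum_Ico_succ_top hn, ih]
          push_cast
          ring
      have h3 : ∀ n : ℕ, y ≤ n → ∑ j ∈ Ico y n, ((j : ℝ) ^ (β - 1) - ((j : ℝ) + 1) ^ (β - 1)) ≤ (y : ℝ) ^ (β - 1) := by
        intro n hn
        rw [h2 n hn]
        have : 0 ≤ (n : ℝ) ^ (β - 1) := by positivity
        linarith
      exact h3 n hyn
    have b6 : 0 ≤ (n : ℝ) ^ β * a n := mul_nonneg (by positivity) (ha0 n)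
    have b7 := hmono y le_rfl
    have b8 : ∑ j ∈ Ico y n, ((j + 1 : ℕ) : ℝ) ^ β * (a j - a (j + 1)) ≤ (1 + β / (1 - β)) * (y : ℝ) ^ (β - 1) := by
      linarith
    have b9 := mul_le_mul_of_nonneg_left b8 hC₁
    rw [e1]
    have b10 := abs_add_le (S n * a n - S y * a y) (∑ j ∈ Ico y n, S (j + 1) * (a j - a (j + 1)))
    have b11 := abs_sub (S n * a n) (S y * a y)
    calc |S n * a n - S y * a y + ∑ j ∈ Ico y n, S (j + 1) * (a j - a (j + 1))| ≤
        C₁ * (y : ℝ) ^ (β - 1) + C₁ * (y : ℝ) ^ (β - 1) + C₁ * ((1 + β / (1 - β)) * (y : ℝ) ^ (β - 1)) := by linarith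
      _ = _ := by ring
  · rw [Ico_eq_empty (by omega), sum_empty, abs_zero]
    positivity

end Pool.Agent.N842.TP
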