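import Pool.Agent.N842.TP.Ana

/-!
# Differences of sums over prime numbers near the edge of absolute convergence
-/

set_option autoImplicit false

namespace Pool.Agent.N842.TP

open Finset
open Pool.Agent.TH894.NF (pr pr_prime)

/-- **the sums over the prime numbers are nearly constant** -/
theorem main_diff {β : ℝ} (hβ0 : 0 < β) (hβ1 : β < 1) : ∃ C : ℝ, 0 ≤ C ∧ ∀ (E : ℕ → ℝ) (B C₁ : ℝ), 0 ≤ C₁ → (∀ j, |E j| ≤ B) →
    ∀ y x : ℕ, 3 ≤ y → y ≤ x → (∀ u, y ≤ u → u ≤ x → |∑ j ∈ range u, E j| ≤ C₁ * (u : ℝ) ^ β) →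
    ∀ s s' : ℝ, 1 < s → s ≤ 2 → 1 < s' → s' ≤ 2 → 1 ≤ (s - 1) * Real.log x → 1 ≤ (s' - 1) * Real.log x → ∀ n : ℕ,
      |∑ j ∈ range n, E j * ((pr j : ℝ) ^ (-s) - (pr j : ℝ) ^ (-s'))| ≤
        C * (B * (|s - s'| * Real.log y) + C₁ * (y : ℝ) ^ (β - 1) + B * ((x : ℝ) ^ (1 - s) + (x : ℝ) ^ (1 - s'))) := by
  have hb : 0 < 1 - β := by linarith
  obtain ⟨c, hc⟩ : ∃ c : ℝ, c = 3 + β / (1 - β) := ⟨_, rfl⟩
  have hc0 : 0 ≤ c := by rw [hc]; positivity
  refine ⟨25 + 2 * c, by positivity, fun E B C₁ hC₁ hE y x hy hyx hS s s' hs hs2 hs' hs2' hsx hsx' n => ?_⟩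
  have hB : 0 ≤ B := (abs_nonneg _).trans (hE 0)
  have hy0 : (0 : ℝ) < y := by exact_mod_cast (by omega : 0 < y)
  have hx0 : (0 : ℝ) < x := by exact_mod_cast (by omega : 0 < x)
  have hly : 1 ≤ Real.log y := by
    have h3 : (Real.exp 1) ≤ y := by
      have := Real.exp_one_lt_d9
      have h4 : (3 : ℝ) ≤ y := by exact_mod_cast hy
      linarith
    exact (Real.le_log_iff_exp_le hy0).2 h3
  have hss : 0 ≤ |s - s'| := abs_nonneg _
  obtain ⟨F, hF⟩ : ∃ F : ℕ → ℝ, F = fun j => E j * ((pr j : ℝ) ^ (-s) - (pr j : ℝ) ^ (-s')) := ⟨_, rfl⟩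
  have hFe : ∀ t : Finset ℕ, ∑ j ∈ t, F j = ∑ j ∈ t, E j * (pr j : ℝ) ^ (-s) - ∑ j ∈ t, E j * (pr j : ℝ) ^ (-s') := by
    intro t
    rw [← sum_sub_distrib]
    refine sum_congr rfl fun j _ => ?_
    rw [hF]
    ring
  have Y0 : 0 ≤ B * (|s - s'| * Real.log y) := by positivity
  have Y1 : 0 ≤ C₁ * (y : ℝ) ^ (β - 1) := by positivity
  have Y2 : 0 ≤ B * ((x : ℝ) ^ (1 - s) + (x : ℝ) ^ (1 - s')) := by positivity
  -- the first part
  have P1 : ∀ n : ℕ, n ≤ y → |∑ j ∈ range n, F j| ≤ 10 * (B * (|s - s'| * Real.log y)) := by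
    intro n hn
    have h1 : ∀ j ∈ range n, |F j| ≤ B * |s - s'| * (Real.log (pr j) / pr j) := by
      intro j _
      rw [hF]
      beta_reduce
      rw [abs_mul, mul_assoc]
      apply mul_le_mul (hE j) _ (abs_nonneg _) hB
      have h2 := diff_rpow (x := (pr j : ℝ)) (σ := 1) (s := s) (s' := s') (by have := pr_two j; exact_mod_cast (by omega : 1 ≤ pr j)) hs.le hs'.le
      rwa [Real.rpow_neg_one, ← div_eq_mul_inv] at h2
    refine (abs_sum_le_sum_abs _ _).trans ((sum_le_sum h1).trans ?_)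
    rw [← mul_sum]
    have h2 : ∑ j ∈ range n, Real.log (pr j) / pr j ≤ ∑ j ∈ range y, Real.log (pr j) / pr j := by
      apply sum_le_sum_of_subset_of_nonneg
      · intro j hj
        rw [mem_range] at hj ⊢
        omega
      · intro j _ _
        exact div_nonneg (log_pr_pos j).le (pr_pos j).le
    have h3 := mertens y
    calc B * |s - s'| * ∑ j ∈ range n, Real.log (pr j) / pr j ≤ B * |s - s'| * (10 * Real.log y) := by
          apply mul_le_mul_of_nonneg_left _ (by positivity)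
          linarith
      _ = _ := by ring
  -- the second part
  have P2 : ∀ n : ℕ, n ≤ x → |∑ j ∈ Ico y n, F j| ≤ 2 * c * (C₁ * (y : ℝ) ^ (β - 1)) := by
    intro n hn
    rw [hFe]
    have h1 := abel hβ0 hβ1 E C₁ hC₁ y n (by omega) (fun u hu hu2 => hS u hu (by omega)) hs.le
    have h2 := abel hβ0 hβ1 E C₁ hC₁ y n (by omega) (fun u hu hu2 => hS u hu (by omega)) hs'.le
    rw [← hc] at h1 h2
    refine (abs_sub _ _).trans ?_
    linarith
  -- the third part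
  have P3' : ∀ s : ℝ, 1 < s → s ≤ 2 → 1 ≤ (s - 1) * Real.log x → ∀ n : ℕ, |∑ j ∈ Ico x n, E j * (pr j : ℝ) ^ (-s)| ≤ 25 * (B * (x : ℝ) ^ (1 - s)) := by
    intro s hs hs2 hsx n
    have h1 : |∑ j ∈ Ico x n, E j * (pr j : ℝ) ^ (-s)| ≤ B * ∑ j ∈ Ico x n, (pr j : ℝ) ^ (-s) := by
      refine (abs_sum_le_sum_abs _ _).trans ?_
      rw [mul_sum]
      refine sum_le_sum fun j _ => ?_
      have := pr_pos j
      rw [abs_mul, abs_of_nonneg (by positivity : 0 ≤ (pr j : ℝ) ^ (-s))]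
      exact mul_le_mul_of_nonneg_right (hE j) (by positivity)
    have h2 := tail hs hs2 x (by omega) n
    have h3 : (x : ℝ) ^ (1 - s) / ((s - 1) * Real.log x) ≤ (x : ℝ) ^ (1 - s) := div_le_self (by positivity) hsx
    calc |∑ j ∈ Ico x n, E j * (pr j : ℝ) ^ (-s)| ≤ B * ∑ j ∈ Ico x n, (pr j : ℝ) ^ (-s) := h1
      _ ≤ B * (25 * (x : ℝ) ^ (1 - s)) := by
          apply mul_le_mul_of_nonneg_left _ hB
          linarith
      _ = _ := by ring
  have P3 : ∀ n : ℕ, |∑ j ∈ Ico x n, F j| ≤ 25 * (B * ((x : ℝ) ^ (1 - s) + (x : ℝ) ^ (1 - s'))) := by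
    intro n
    rw [hFe]
    have h1 := P3' s hs hs2 hsx n
    have h2 := P3' s' hs' hs2' hsx' n
    refine (abs_sub _ _).trans ?_
    linarith
  have hc2 : 0 ≤ c * (B * (|s - s'| * Real.log y)) := by positivity
  have hc3 : 0 ≤ c * (B * ((x : ℝ) ^ (1 - s) + (x : ℝ) ^ (1 - s'))) := by positivity
  have hc4 : 0 ≤ c * (C₁ * (y : ℝ) ^ (β - 1)) := by positivity
  have hgoal : ∑ j ∈ range n, E j * ((pr j : ℝ) ^ (-s) - (pr j : ℝ) ^ (-s')) = ∑ j ∈ range n, F j := by rw [hF]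
  rw [hgoal]
  rcases le_total n y with h1 | h1
  · have := P1 n h1
    linarith
  · rcases le_total n x with h2 | h2
    · rw [← sum_range_add_sum_Ico F h1]
      have a1 := P1 y le_rfl
      have a2 := P2 n h2
      have a3 := abs_add_le (∑ j ∈ range y, F j) (∑ j ∈ Ico y n, F j)
      linarith
    · rw [← sum_range_add_sum_Ico F h1, ← sum_Ico_consecutive F hyx h2]
      have a1 := P1 y le_rfl
      have a2 := P2 x le_rfl
      have a4 := P3 n
      have a3 := abs_add_le (∑ j ∈ range y, F j) (∑ j ∈ Ico y x, F j + ∑ j ∈ Ico x n, F j)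
      have a5 := abs_add_le (∑ j ∈ Ico y x, F j) (∑ j ∈ Ico x n, F j)
      linarith

end Pool.Agent.N842.TP
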