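import Pool.Agent.N842.TP.Tot

/-!
# The poles of the L-functions of almost all products
-/

set_option autoImplicit false

namespace Pool.Agent.N842.TP

open Finset NumberField IsDedekindDomain Filter Topology
open Pool.Agent.N842.SQ
open Pool.Agent.N842.HS (hv VT mem_VT res_char prime_above norm_card absNorm_hv hom_finite hom_card cf sum_deg1 factNth)
open Pool.Agent.H921R2.TatePole (nm_ne_zero two_le_nm ZK ZK_tendsto nm_summable nm_rpow_le_half)
open Pool.Agent.TH894.NF (pr pr_prime)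
open Pool.Agent.Y57.FD (digit exceptions)

section
variable (K : Type) [Field K] [NumberField K]

/-- the logarithm of the zeta function near the pole -/
lemma zeta_near (η : ℝ) (hη : 0 < η) : ∃ τ : ℝ, 0 < τ ∧ ∀ s s' : ℝ, 1 < s → s ≤ 1 + τ → 1 < s' → s' ≤ 1 + τ →
    |Real.log ((s - 1) * ZK K s) - Real.log ((s' - 1) * ZK K s')| ≤ η := by
  have h1 := ZK_tendsto (K := K)
  have hρ : 0 < dedekindZeta_residue K := dedekindZeta_residue_pos K
  have h2 : Tendsto (fun s : ℝ => Real.log ((s - 1) * ZK K s)) (𝓝[>] 1) (𝓝 (Real.log (dedekindZeta_residue K))) := h1.log hρ.ne'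
  have h3 := (Metric.tendsto_nhds.1 h2) (η / 2) (by positivity)
  rw [eventually_nhdsWithin_iff, Metric.eventually_nhds_iff] at h3
  obtain ⟨τ, hτ, h⟩ := h3
  refine ⟨τ / 2, by positivity, fun s s' hs hs1 hs' hs1' => ?_⟩
  have a1 := h (y := s) (by rw [Real.dist_eq, abs_of_pos (by linarith)]; linarith) hs
  have a2 := h (y := s') (by rw [Real.dist_eq, abs_of_pos (by linarith)]; linarith) hs'
  rw [Real.dist_eq] at a1 a2
  rw [abs_sub_comm] at a2
  have a3 := abs_sub_le (Real.log ((s - 1) * ZK K s)) (Real.log (dedekindZeta_residue K)) (Real.log ((s' - 1) * ZK K s'))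
  linarith

variable {K}

/-- the L-functions -/
noncomputable def Ph {N : ℕ} (n : Fin N → ℕ) (l : ℕ) {D : ℕ} (i : ℕ) (c : Fin (N * D) → 𝓞 K) (s : ℝ) : ℝ :=
  Real.exp (∑' v : HeightOneSpectrum (𝓞 K), ∑' k : ℕ, TRv n l i (k + 1) v c * term v k s)

lemma Ph_eq {N : ℕ} (n : Fin N → ℕ) (l : ℕ) (hl : l.Prime) {D : ℕ} (hD : Nat.Coprime D l) (i : ℕ) (c : Fin (N * D) → 𝓞 K) {s : ℝ} (hs : 1 < s) :
    (s - 1) ^ ((Rk n l).coeff i) * Ph n l i c s =
      Real.exp ((((Rk n l).coeff i : ℕ) : ℝ) * Real.log ((s - 1) * ZK K s) + ∑' v : HeightOneSpectrum (𝓞 K), dl n l i c s v) := by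
  have h1 : 0 < s - 1 := by linarith
  have h2 := Pool.Agent.Y125.XT.ZK_pos' (K := K) hs
  unfold Ph
  rw [logL_eq n l hl hD i c hs, Real.log_mul h1.ne' h2.ne', mul_add, add_assoc,
    Real.exp_add ((((Rk n l).coeff i : ℕ) : ℝ) * Real.log (s - 1)), Real.exp_nat_mul, Real.exp_log h1]

lemma near_exp {η ε a b : ℝ} (hη : η = Real.log (1 + ε)) (hε : 0 < ε) (h : |a - b| ≤ η) : |Real.exp a - Real.exp b| ≤ ε * Real.exp b := by
  have h1 : Real.exp η = 1 + ε := by rw [hη, Real.exp_log (by linarith)]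
  have h2 : Real.exp a - Real.exp b = Real.exp b * (Real.exp (a - b) - 1) := by
    rw [mul_sub, ← Real.exp_add, mul_one]
    congr 2
    ring
  have h3 := abs_le.1 h
  have h4 : Real.exp (a - b) ≤ 1 + ε := by
    rw [← h1]
    exact Real.exp_le_exp.2 h3.2
  have h5 : 1 - ε ≤ Real.exp (a - b) := by
    have h6 : Real.exp (-η) ≤ Real.exp (a - b) := Real.exp_le_exp.2 h3.1
    have h7 : 1 - ε ≤ Real.exp (-η) := by
      rw [Real.exp_neg, h1]
      rw [← one_div, le_div_iff₀ (by linarith)]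
      nlinarith [sq_nonneg ε]
    linarith
  rw [h2, abs_mul, abs_of_pos (Real.exp_pos b), mul_comm]
  apply mul_le_mul_of_nonneg_right _ (Real.exp_pos b).le
  rw [abs_le]
  constructor <;> linarith

open Classical in
/-- **the poles of the L-functions for almost all products** -/
theorem poles (K : Type) [Field K] [NumberField K] (b g l N D : ℕ) (ω : Fin g → 𝓞 K) (hω : (1 : 𝓞 K) ∈ Submodule.span ℤ (Set.range ω))
    (hl : l.Prime) (hζ : ∃ ζ : K, IsPrimitiveRoot ζ l) (hD : Nat.Coprime D l) (hb : 2 ≤ b) (hd : 1 ≤ N * D * g)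
    (n : Fin N → ℕ) (hn : ∀ c, n c ≤ D) (ε : ℝ) (hε : 0 < ε) (A I : ℕ) :
    ∃ M : ℝ, 0 < M ∧ ∃ y₀ : ℕ, ∀ (L r : Fin (N * D * g) → ℕ) (y : ℕ), (∀ i, 2 * r i ≤ L i) → y₀ ≤ y →
    ∀ N' : Fin (N * D * g) → ℕ, (∀ i, N' i < b ^ L i) →
    ∀ f : Fin (N * D * g) → ℕ → ℕ, (∀ i j, f i j < b ∧ f i j ≠ digit b j (N' i)) →
    ∀ E : (Fin (N * D * g) → ℕ) → Prop,
    (∀ m : Fin (N * D * g) → ℕ, (∀ i ≤ I, ∃ Λ : ℝ, 0 < Λ ∧ ∀ s : ℝ, 1 < s → (∀ j, M ≤ (s - 1) * r j) → M * ((s - 1) * Real.log y) ≤ 1 →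
      |(s - 1) ^ ((Rk n l).coeff i) * Ph n l i (cf (D := N * D) ω m) s - Λ| ≤ ε * Λ) → E m) →
    (exceptions b L r N' f E : ℝ) ≤ 1 / (y : ℝ) ^ A * ∏ i, ((L i).choose (r i) : ℝ) := by
  obtain ⟨c, hc, C₁, hC₁, y₀, h⟩ := law K b g l N D ω hω hl hζ hD hb hd n hn (1 / 4) (by norm_num) A I
  -- the constants for all degrees
  have htot := fun i => total K n l hl hD i (β := 3 / 4) (by norm_num) (by norm_num)
  choose C₂ hC₂ htot using htot
  obtain ⟨C, hCdef⟩ : ∃ C : ℝ, C = ∑ i ∈ range (I + 1), C₂ i := ⟨_, rfl⟩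
  have hC0 : 0 ≤ C := by
    rw [hCdef]
    exact sum_nonneg fun i _ => hC₂ i
  have hCi : ∀ i ≤ I, C₂ i ≤ C := by
    intro i hi
    rw [hCdef]
    exact single_le_sum (f := C₂) (fun i _ => hC₂ i) (mem_range.2 (by omega))
  obtain ⟨R, hRdef⟩ : ∃ R : ℝ, R = ∑ i ∈ range (I + 1), (((Rk n l).coeff i : ℕ) : ℝ) := ⟨_, rfl⟩
  have hR0 : 0 ≤ R := by
    rw [hRdef]
    exact sum_nonneg fun i _ => Nat.cast_nonneg _
  have hRi : ∀ i ≤ I, (((Rk n l).coeff i : ℕ) : ℝ) ≤ R := by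
    intro i hi
    rw [hRdef]
    exact single_le_sum (f := fun i => (((Rk n l).coeff i : ℕ) : ℝ)) (fun i _ => Nat.cast_nonneg _) (mem_range.2 (by omega))
  obtain ⟨η, hη⟩ : ∃ η : ℝ, η = Real.log (1 + ε) := ⟨_, rfl⟩
  have hη0 : 0 < η := by
    rw [hη]
    exact Real.log_pos (by linarith)
  obtain ⟨τ, hτ, hz⟩ := zeta_near K (η / (4 * (R + 1))) (by positivity)
  -- the size of y
  obtain ⟨y₁, hy₁⟩ : ∃ y₁ : ℕ, ∀ y : ℕ, y₁ ≤ y → C * (C₁ * (y : ℝ) ^ ((3 / 4 : ℝ) - 1)) ≤ η / 4 := by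
    have h1 : Tendsto (fun y : ℕ => C * (C₁ * (y : ℝ) ^ ((3 / 4 : ℝ) - 1))) atTop (𝓝 (C * (C₁ * 0))) := by
      apply Tendsto.const_mul
      apply Tendsto.const_mul
      have h2 : (3 / 4 : ℝ) - 1 = -(1 / 4) := by norm_num
      rw [h2]
      exact (tendsto_rpow_neg_atTop (by norm_num : (0 : ℝ) < 1 / 4)).comp tendsto_natCast_atTop_atTop
    rw [mul_zero, mul_zero] at h1
    have h2 := h1.eventually (ge_mem_nhds (by positivity : (0 : ℝ) < η / 4))
    exact eventually_atTop.1 h2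
  -- the size of M
  obtain ⟨M, hM1, hM2, hM3, hM4, hM5, hM6⟩ : ∃ M : ℝ, 1 ≤ M ∧ 1 / c ≤ M ∧ 1 / τ ≤ M ∧ 4 * C / η ≤ M ∧ 2 / c ≤ M ∧
      C * (2 * Real.exp (-(c * M - 1))) ≤ η / 4 := by
    have h1 : Tendsto (fun M : ℝ => C * (2 * Real.exp (-(c * M - 1)))) atTop (𝓝 (C * (2 * 0))) := by
      apply Tendsto.const_mul
      apply Tendsto.const_mul
      apply Real.tendsto_exp_atBot.comp
      apply tendsto_neg_atTop_atBot.comp
      apply tendsto_atTop_add_const_right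
      exact tendsto_id.const_mul_atTop hc
    rw [mul_zero, mul_zero] at h1
    have h2 := h1.eventually (ge_mem_nhds (by positivity : (0 : ℝ) < η / 4))
    obtain ⟨M, hM⟩ := (((((h2.and (eventually_ge_atTop 1)).and (eventually_ge_atTop (1 / c))).and (eventually_ge_atTop (1 / τ))).and
      (eventually_ge_atTop (4 * C / η))).and (eventually_ge_atTop (2 / c))).exists
    exact ⟨M, hM.1.1.1.1.2, hM.1.1.1.2, hM.1.1.2, hM.1.2, hM.2, hM.1.1.1.1.1⟩
  have hM0 : 0 < M := by linarith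
  refine ⟨M, hM0, y₀ + y₁ + 3, fun L r y hrL hy N' hN' f hf E hE => ?_⟩
  refine h L r y hrL (by omega) N' hN' f hf E fun m hm => hE m fun i hi => ?_
  have hy0 : (0 : ℝ) < y := by exact_mod_cast (by omega : 0 < y)
  have hly : 1 ≤ Real.log y := by
    have h3 : (Real.exp 1) ≤ y := by
      have := Real.exp_one_lt_d9
      have h4 : (3 : ℝ) ≤ y := by exact_mod_cast (by omega : 3 ≤ y)
      linarith
    exact (Real.le_log_iff_exp_le hy0).2 h3
  -- the smallest number of changes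
  have hne : (univ : Finset (Fin (N * D * g))).Nonempty := ⟨⟨0, by omega⟩, mem_univ _⟩
  obtain ⟨j₀, _, hj₀⟩ := exists_min_image univ r hne
  obtain ⟨x, hx⟩ : ∃ x : ℕ, x = ⌊Real.exp (c * r j₀)⌋₊ := ⟨_, rfl⟩
  have hxle : (x : ℝ) ≤ Real.exp (c * r j₀) := by
    rw [hx]
    exact Nat.floor_le (Real.exp_pos _).le
  have hxle' : ∀ j, (x : ℝ) ≤ Real.exp (c * r j) := by
    intro j
    refine hxle.trans (Real.exp_le_exp.2 (mul_le_mul_of_nonneg_left ?_ hc.le))
    exact_mod_cast hj₀ j (mem_univ _)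
  -- the admissible real numbers
  have adm : ∀ s : ℝ, 1 < s → (∀ j, M ≤ (s - 1) * r j) → M * ((s - 1) * Real.log y) ≤ 1 →
      s ≤ 2 ∧ s ≤ 1 + τ ∧ y ≤ x ∧ c * M - 1 ≤ (s - 1) * Real.log x ∧ 1 ≤ (s - 1) * Real.log x := by
    intro s hs h1 h2
    have hs0 : 0 < s - 1 := by linarith
    have h3 : M * (s - 1) ≤ 1 := by
      have h4 : (s - 1) ≤ (s - 1) * Real.log y := le_mul_of_one_le_right hs0.le hly
      nlinarith
    have h4 : s - 1 ≤ 1 / M := by
      rw [le_div_iff₀ hM0]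
      linarith
    have h5 : 1 / M ≤ 1 := by
      rw [div_le_one hM0]
      exact hM1
    have h6 : 1 / M ≤ τ := by
      rw [div_le_iff₀ hM0]
      rw [div_le_iff₀ hτ] at hM3
      linarith
    have h7 := h1 j₀
    have h8 : Real.log y ≤ c * r j₀ := by
      have a1 : Real.log y ≤ 1 / (M * (s - 1)) := by
        rw [le_div_iff₀ (by positivity)]
        linarith
      have a2 : 1 / (M * (s - 1)) ≤ r j₀ / (M * M) := by
        rw [div_le_div_iff₀ (by positivity) (by positivity)]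
        have a3 : 1 * (M * M) ≤ M * ((s - 1) * r j₀) := by nlinarith
        linarith
      have a3 : (r j₀ : ℝ) / (M * M) ≤ c * r j₀ := by
        rw [div_le_iff₀ (by positivity)]
        have a4 : 1 ≤ c * M := by
          rw [div_le_iff₀ hc] at hM2
          linarith
        have a5 : 1 ≤ c * (M * M) := by nlinarith
        have a6 : (0 : ℝ) ≤ r j₀ := Nat.cast_nonneg _
        nlinarith
      linarith
    have h9 : (y : ℝ) ≤ Real.exp (c * r j₀) := by
      rw [← Real.exp_log hy0]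
      exact Real.exp_le_exp.2 h8
    have h10 : y ≤ x := by
      rw [hx]
      exact Nat.le_floor h9
    have hx0 : (0 : ℝ) < x := by exact_mod_cast (by omega : 0 < x)
    have h11 : c * r j₀ - 1 ≤ Real.log x := by
      have b1 : Real.exp (c * r j₀) ≤ (x : ℝ) + 1 := by
        rw [hx]
        exact (Nat.lt_floor_add_one _).le
      have b2 : (x : ℝ) + 1 ≤ Real.exp 1 * x := by
        have b3 := Real.exp_one_gt_d9
        have b4 : (1 : ℝ) ≤ x := by exact_mod_cast (by omega : 1 ≤ x)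
        nlinarith
      have b3 : c * r j₀ ≤ Real.log (Real.exp 1 * x) := (Real.le_log_iff_exp_le (by positivity)).2 (b1.trans b2)
      rw [Real.log_mul (Real.exp_pos 1).ne' hx0.ne', Real.log_exp] at b3
      linarith
    have h12 : c * M - 1 ≤ (s - 1) * Real.log x := by
      have b1 : (s - 1) * (c * r j₀ - 1) ≤ (s - 1) * Real.log x := mul_le_mul_of_nonneg_left h11 hs0.le
      have b2 : c * M ≤ c * ((s - 1) * r j₀) := mul_le_mul_of_nonneg_left h7 hc.le
      nlinarith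
    refine ⟨by linarith, by linarith, h10, h12, ?_⟩
    have : 2 ≤ c * M := by
      rw [div_le_iff₀ hc] at hM5
      linarith
    linarith
  by_cases hex : ∃ s₀ : ℝ, 1 < s₀ ∧ (∀ j, M ≤ (s₀ - 1) * r j) ∧ M * ((s₀ - 1) * Real.log y) ≤ 1
  · obtain ⟨s₀, hs₀, ha₀, hb₀⟩ := hex
    obtain ⟨g1, g2, g3, g4, g5⟩ := adm s₀ hs₀ ha₀ hb₀
    refine ⟨(s₀ - 1) ^ ((Rk n l).coeff i) * Ph n l i (cf (D := N * D) ω m) s₀, ?_, fun s hs ha hb' => ?_⟩
    · have : 0 < s₀ - 1 := by linarith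
      exact mul_pos (pow_pos this _) (Real.exp_pos _)
    obtain ⟨k1, k2, _, k4, k5⟩ := adm s hs ha hb'
    rw [Ph_eq n l hl hD i _ hs, Ph_eq n l hl hD i _ hs₀]
    apply near_exp hη hε
    have hx0 : (0 : ℝ) < x := by exact_mod_cast (by omega : 0 < x)
    have t1 := htot i (cf (D := N * D) ω m) C₁ hC₁ y x (by omega) g3 (fun u hyu hux => by
      have h1 := hm u hyu (fun j => le_trans (by exact_mod_cast hux) (hxle' j)) i hi
      have h2 : (1 / 2 + 1 / 4 : ℝ) = 3 / 4 := by norm_num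
      rw [h2] at h1
      exact h1) s s₀ hs k1 hs₀ g1 k5 g5
    have t2 := hz s s₀ hs k2 hs₀ g2
    have hr := hRi i hi
    have hCi' := hCi i hi
    -- the parts of the bound
    have p1 : |s - s₀| * Real.log y ≤ 1 / M := by
      have q1 : (s - 1) * Real.log y ≤ 1 / M := by
        rw [le_div_iff₀ hM0]
        linarith
      have q2 : (s₀ - 1) * Real.log y ≤ 1 / M := by
        rw [le_div_iff₀ hM0]
        linarith
      have q3 : |s - s₀| ≤ max (s - 1) (s₀ - 1) := by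
        rw [abs_le]
        have a1 := le_max_left (s - 1) (s₀ - 1)
        have a2 := le_max_right (s - 1) (s₀ - 1)
        constructor <;> linarith
      refine (mul_le_mul_of_nonneg_right q3 (by linarith)).trans ?_
      rcases le_total (s - 1) (s₀ - 1) with h' | h'
      · rw [max_eq_right h']
        exact q2
      · rw [max_eq_left h']
        exact q1
    have p2 : ∀ s : ℝ, c * M - 1 ≤ (s - 1) * Real.log x → (x : ℝ) ^ (1 - s) ≤ Real.exp (-(c * M - 1)) := by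
      intro s hs
      rw [Real.rpow_def_of_pos hx0]
      apply Real.exp_le_exp.2
      linarith
    have p3 := p2 s k4
    have p4 := p2 s₀ g4
    have p5 : C₂ i * (|s - s₀| * Real.log y + C₁ * (y : ℝ) ^ ((3 / 4 : ℝ) - 1) + ((x : ℝ) ^ (1 - s) + (x : ℝ) ^ (1 - s₀))) ≤ 3 * (η / 4) := by
      have q0 : 0 ≤ |s - s₀| * Real.log y := by positivity
      have q1 : 0 ≤ C₁ * (y : ℝ) ^ ((3 / 4 : ℝ) - 1) := by positivity
      have q2 : 0 ≤ (x : ℝ) ^ (1 - s) + (x : ℝ) ^ (1 - s₀) := by positivity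
      have q3 : C₂ i * (|s - s₀| * Real.log y + C₁ * (y : ℝ) ^ ((3 / 4 : ℝ) - 1) + ((x : ℝ) ^ (1 - s) + (x : ℝ) ^ (1 - s₀))) ≤
          C * (|s - s₀| * Real.log y + C₁ * (y : ℝ) ^ ((3 / 4 : ℝ) - 1) + ((x : ℝ) ^ (1 - s) + (x : ℝ) ^ (1 - s₀))) :=
        mul_le_mul_of_nonneg_right hCi' (by positivity)
      have q4 : C * (|s - s₀| * Real.log y) ≤ η / 4 := by
        have r1 : C * (|s - s₀| * Real.log y) ≤ C * (1 / M) := mul_le_mul_of_nonneg_left p1 hC0
        have r2 : C * (1 / M) ≤ η / 4 := by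
          rw [mul_one_div, div_le_iff₀ hM0]
          rw [div_le_iff₀ hη0] at hM4
          linarith
        linarith
      have q5 := hy₁ y (by omega)
      have q6 : C * ((x : ℝ) ^ (1 - s) + (x : ℝ) ^ (1 - s₀)) ≤ η / 4 := by
        refine le_trans (mul_le_mul_of_nonneg_left ?_ hC0) hM6
        linarith
      refine q3.trans ?_
      rw [mul_add, mul_add]
      linarith
    have p6 : (((Rk n l).coeff i : ℕ) : ℝ) * |Real.log ((s - 1) * ZK K s) - Real.log ((s₀ - 1) * ZK K s₀)| ≤ η / 4 := by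
      have q1 : (((Rk n l).coeff i : ℕ) : ℝ) * |Real.log ((s - 1) * ZK K s) - Real.log ((s₀ - 1) * ZK K s₀)| ≤ (R + 1) * (η / (4 * (R + 1))) :=
        mul_le_mul (by linarith) t2 (abs_nonneg _) (by linarith)
      refine q1.trans (le_of_eq ?_)
      have : R + 1 ≠ 0 := by positivity
      field_simp
    have e1 : (((Rk n l).coeff i : ℕ) : ℝ) * Real.log ((s - 1) * ZK K s) + ∑' v : HeightOneSpectrum (𝓞 K), dl n l i (cf (D := N * D) ω m) s v -
        ((((Rk n l).coeff i : ℕ) : ℝ) * Real.log ((s₀ - 1) * ZK K s₀) + ∑' v : HeightOneSpectrum (𝓞 K), dl n l i (cf (D := N * D) ω m) s₀ v) =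
        (((Rk n l).coeff i : ℕ) : ℝ) * (Real.log ((s - 1) * ZK K s) - Real.log ((s₀ - 1) * ZK K s₀)) +
        (∑' v : HeightOneSpectrum (𝓞 K), dl n l i (cf (D := N * D) ω m) s v - ∑' v : HeightOneSpectrum (𝓞 K), dl n l i (cf (D := N * D) ω m) s₀ v) := by
      ring
    rw [e1]
    refine (abs_add_le _ _).trans ?_
    rw [abs_mul, Nat.abs_cast]
    linarith
  · refine ⟨1, one_pos, fun s hs ha hb' => ?_⟩
    exact absurd ⟨s, hs, ha, hb'⟩ hex

end

end Pool.Agent.N842.TP
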