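import Pool.Agent.N842.TP.Lm
import Pool.Agent.N842.HS.NFW

/-!
# The sums of the traces over the prime ideals of degree one
-/

set_option autoImplicit false

namespace Pool.Agent.N842.TP

open Finset NumberField
open Pool.Agent.N842.SQ (nm nm_nonneg)
open Pool.Agent.N842.ST (kap kap_nonneg kap_le)
open Pool.Agent.N842.HS (SF cf red red_cf hom_finite hom_card genR pr_mono)
open Pool.Agent.TH894.NF (pr pr_prime)
open Pool.Agent.Y57.FD (digit exceptions)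

instance factPr (j : ℕ) : Fact (pr j).Prime := ⟨pr_prime j⟩

section
variable {K : Type} [Field K] [NumberField K]

omit [NumberField K] in
lemma zeta_hom {l : ℕ} (hl : l.Prime) (hζ : ∃ ζ : K, IsPrimitiveRoot ζ l) (p : ℕ) [hp : Fact p.Prime] (hpl : p ≠ l) (φ : 𝓞 K →+* ZMod p) :
    l ∣ p - 1 := by
  obtain ⟨ζ, hζ⟩ := hζ
  have : NeZero l := ⟨hl.ne_zero⟩
  have h1 := hζ.toInteger_isPrimitiveRoot
  obtain ⟨a, ha⟩ : ∃ a : ZMod p, a = φ hζ.toInteger := ⟨_, rfl⟩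
  have h2 : a ^ l = 1 := by
    rw [ha, ← map_pow, h1.pow_eq_one, map_one]
  have h3 : a ≠ 1 := by
    intro h
    have h4 := h1.geom_sum_eq_zero hl.one_lt
    have h5 := congrArg φ h4
    rw [map_sum, map_zero] at h5
    have h6 : ∀ i ∈ range l, φ (hζ.toInteger ^ i) = 1 := by
      intro i _
      rw [map_pow, ← ha, h, one_pow]
    rw [sum_congr rfl h6, sum_const, card_range, nsmul_eq_mul, mul_one] at h5
    exact hpl ((Nat.prime_dvd_prime_iff_eq hp.out hl).1 ((ZMod.natCast_eq_zero_iff l p).1 h5))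
  have : Fact l.Prime := ⟨hl⟩
  have h4 : orderOf a = l := orderOf_eq_prime h2 h3
  have h5 : a ≠ 0 := by
    rintro rfl
    rw [zero_pow hl.ne_zero] at h2
    exact zero_ne_one h2
  have h6 := ZMod.orderOf_dvd_card_sub_one h5
  rwa [h4] at h6

variable {N : ℕ} (n : Fin N → ℕ)

/-- the trace at a prime ideal of degree one -/
noncomputable def TRp (l : ℕ) {D : ℕ} (i : ℕ) (p : ℕ) [Fact p.Prime] (u : Fin (N * D) → ZMod p) : ℝ :=
  ∑ θ ∈ Im n, cfm n (2 * i) θ * GG l N D θ p u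

/-- the sum of the traces minus the rank over the prime ideals of degree one above `p` -/
noncomputable def Ej (l : ℕ) {D : ℕ} (i : ℕ) (p : ℕ) [Fact p.Prime] (c : Fin (N * D) → 𝓞 K) : ℝ :=
  ∑ᶠ φ : 𝓞 K →+* ZMod p, (TRp n l i p (fun k => φ (c k)) - (((Rk n l).coeff i : ℕ) : ℝ))

/-- a bound for the traces -/
noncomputable def BT (l D i : ℕ) : ℝ := ∑ θ ∈ Im n, |cfm n (2 * i) θ| * (∏ c, B0 l D ^ θ c + ∏ c, nm l l (θ c))

lemma BT_nonneg (l : ℕ) (hl : l.Prime) (D i : ℕ) : 0 ≤ BT n l D i := by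
  have hB := B0_ge l hl D
  refine sum_nonneg fun θ _ => mul_nonneg (abs_nonneg _) (add_nonneg (by positivity) (prod_nonneg fun c _ => ?_))
  exact nm_nonneg _ _ (Nat.cast_nonneg _) (Nat.cast_nonneg _) _

lemma rk_le (l : ℕ) (hl : l.Prime) (D i : ℕ) : (((Rk n l).coeff i : ℕ) : ℝ) ≤ BT n l D i := by
  have hB := B0_ge l hl D
  rw [← rank_eq n l hl.one_lt.le i]
  refine (le_abs_self _).trans ((abs_sum_le_sum_abs _ _).trans ?_)
  unfold BT
  refine sum_le_sum fun θ _ => ?_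
  rw [abs_mul]
  apply mul_le_mul_of_nonneg_left _ (abs_nonneg _)
  have hl1 : (1 : ℝ) ≤ l := by exact_mod_cast hl.one_lt.le
  have h1 : |∏ c, nm ((l : ℝ) - 1) 0 (θ c)| ≤ ∏ c, nm l l (θ c) := by
    rw [abs_prod]
    exact prod_le_prod (fun c _ => abs_nonneg _) fun c _ => nm_abs _ (by linarith) _ (by linarith) _
  have h2 : 0 ≤ ∏ c, B0 l D ^ θ c := by positivity
  linarith

lemma TRp_le (l : ℕ) (hl : l.Prime) (D : ℕ) (hD : Nat.Coprime D l) (i p : ℕ) [hp : Fact p.Prime] (u : Fin (N * D) → ZMod p) :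
    |TRp n l i p u| ≤ BT n l D i := by
  unfold TRp BT
  refine (abs_sum_le_sum_abs _ _).trans (sum_le_sum fun θ _ => ?_)
  rw [abs_mul]
  apply mul_le_mul_of_nonneg_left _ (abs_nonneg _)
  have h1 := GG_le l hl N D hD θ p u
  have h2 : 0 ≤ ∏ c, nm l l (θ c) := prod_nonneg fun c _ => nm_nonneg _ _ (Nat.cast_nonneg _) (Nat.cast_nonneg _) _
  linarith

lemma Ej_eq (l : ℕ) (hl : l.Prime) (hζ : ∃ ζ : K, IsPrimitiveRoot ζ l) {g D : ℕ} (ω : Fin g → 𝓞 K) (i : ℕ) (p : ℕ) [hp : Fact p.Prime]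
    (m : Fin (N * D * g) → ℕ) (hpl : p ≠ l) : Ej n l i p (cf ω m) =
      ∑ θ ∈ Im n, cfm n (2 * i) θ * (SF ω (GG l N D θ) p m - (Nat.card (𝓞 K →+* ZMod p) : ℝ) * MG l N θ p) := by
  have : Finite (𝓞 K →+* ZMod p) := hom_finite (𝓞 K) p
  have : Fintype (𝓞 K →+* ZMod p) := Fintype.ofFinite _
  unfold Ej
  rw [finsum_eq_sum_of_fintype, sum_sub_distrib, sum_const, card_univ, nsmul_eq_mul, ← Nat.card_eq_fintype_card]
  have h1 : ∑ φ : 𝓞 K →+* ZMod p, TRp n l i p (fun k => φ (cf ω m k)) = ∑ θ ∈ Im n, cfm n (2 * i) θ * SF ω (GG l N D θ) p m := by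
    unfold TRp
    rw [sum_comm]
    refine sum_congr rfl fun θ _ => ?_
    rw [Pool.Agent.N842.HS.SF_eq (D := N * D) ω (GG l N D θ) p m, ← mul_sum]
    have h5 : ∀ φ : 𝓞 K →+* ZMod p, red (D := N * D) ω φ (fun k => (m k : ZMod p)) = fun k => φ (cf (D := N * D) ω m k) :=
      fun φ => red_cf (D := N * D) ω φ m
    simp only [h5]
  rw [h1]
  have h2 : (Nat.card (𝓞 K →+* ZMod p) : ℝ) * (((Rk n l).coeff i : ℕ) : ℝ) =
      ∑ θ ∈ Im n, cfm n (2 * i) θ * ((Nat.card (𝓞 K →+* ZMod p) : ℝ) * MG l N θ p) := by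
    by_cases h : Nonempty (𝓞 K →+* ZMod p)
    · obtain ⟨φ⟩ := h
      have h3 := zeta_hom hl hζ p hpl φ
      have h4 : kap p l 1 = (l : ℝ) - 1 := by
        unfold kap
        rw [pow_one, if_pos h3]
      rw [← rank_eq n l hl.one_lt.le i, mul_sum]
      refine sum_congr rfl fun θ _ => ?_
      unfold MG
      rw [h4]
      ring
    · rw [not_nonempty_iff] at h
      rw [Nat.card_of_isEmpty]
      simp
  rw [h2, ← sum_sub_distrib]
  exact sum_congr rfl fun θ _ => by ring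

lemma Ej_le (l : ℕ) (hl : l.Prime) (D : ℕ) (hD : Nat.Coprime D l) (i : ℕ) (nK : ℕ) (hnK : ∀ (p : ℕ) [Fact p.Prime], Nat.card (𝓞 K →+* ZMod p) ≤ nK)
    (p : ℕ) [hp : Fact p.Prime] (c : Fin (N * D) → 𝓞 K) : |Ej n l i p c| ≤ nK * (2 * BT n l D i) := by
  have : Finite (𝓞 K →+* ZMod p) := hom_finite (𝓞 K) p
  have : Fintype (𝓞 K →+* ZMod p) := Fintype.ofFinite _
  unfold Ej
  rw [finsum_eq_sum_of_fintype]
  have h0 := BT_nonneg n l hl D i
  have h1 : ∀ φ : 𝓞 K →+* ZMod p, |TRp n l i p (fun k => φ (c k)) - (((Rk n l).coeff i : ℕ) : ℝ)| ≤ 2 * BT n l D i := by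
    intro φ
    have h2 := TRp_le n l hl D hD i p (fun k => φ (c k))
    have h3 := rk_le n l hl D i
    have h4 : |(((Rk n l).coeff i : ℕ) : ℝ)| ≤ BT n l D i := by rwa [Nat.abs_cast]
    refine (abs_sub _ _).trans ?_
    linarith
  refine (abs_sum_le_sum_abs _ _).trans ((sum_le_sum fun φ _ => h1 φ).trans ?_)
  rw [sum_const, card_univ, nsmul_eq_mul, ← Nat.card_eq_fintype_card]
  exact mul_le_mul_of_nonneg_right (by exact_mod_cast hnK p) (by positivity)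

open Classical in
/-- **the sums of the traces for almost all products** -/
theorem law (K : Type) [Field K] [NumberField K] (b g l N D : ℕ) (ω : Fin g → 𝓞 K) (hω : (1 : 𝓞 K) ∈ Submodule.span ℤ (Set.range ω))
    (hl : l.Prime) (hζ : ∃ ζ : K, IsPrimitiveRoot ζ l) (hD : Nat.Coprime D l) (hb : 2 ≤ b) (hd : 1 ≤ N * D * g)
    (n : Fin N → ℕ) (hn : ∀ c, n c ≤ D) (δ : ℝ) (hδ : 0 < δ) (A I : ℕ) :
    ∃ c : ℝ, 0 < c ∧ ∃ C₁ : ℝ, 0 ≤ C₁ ∧ ∃ y₀ : ℕ, ∀ (L r : Fin (N * D * g) → ℕ) (y : ℕ), (∀ i, 2 * r i ≤ L i) → y₀ ≤ y →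
    ∀ N' : Fin (N * D * g) → ℕ, (∀ i, N' i < b ^ L i) →
    ∀ f : Fin (N * D * g) → ℕ → ℕ, (∀ i j, f i j < b ∧ f i j ≠ digit b j (N' i)) →
    ∀ E : (Fin (N * D * g) → ℕ) → Prop,
    (∀ m : Fin (N * D * g) → ℕ, (∀ x : ℕ, y ≤ x → (∀ i, (x : ℝ) ≤ Real.exp (c * r i)) → ∀ i ≤ I,
      |∑ j ∈ range x, Ej n l i (pr j) (cf (D := N * D) ω m)| ≤ C₁ * (x : ℝ) ^ (1 / 2 + δ)) → E m) →
    (exceptions b L r N' f E : ℝ) ≤ 1 / (y : ℝ) ^ A * ∏ i, ((L i).choose (r i) : ℝ) := by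
  obtain ⟨nK, hnK⟩ := hom_card (𝓞 K)
  obtain ⟨C₁, hC₁⟩ : ∃ C₁ : ℝ, C₁ = ∑ i ∈ range (I + 1), ((∑ θ ∈ Im n, |cfm n (2 * i) θ|) + nK * (2 * BT n l D i) +
      ∑ θ ∈ Im n, |cfm n (2 * i) θ| * (nK * (∏ c, B0 l D ^ θ c + ∏ c, nm l l (θ c)))) := ⟨_, rfl⟩
  have hB := B0_ge l hl D
  have hbt : ∀ θ : Fin N → ℕ, 0 ≤ ∏ c, B0 l D ^ θ c + ∏ c, nm (l : ℝ) l (θ c) := fun θ =>
    add_nonneg (by positivity) (prod_nonneg fun c _ => nm_nonneg _ _ (Nat.cast_nonneg _) (Nat.cast_nonneg _) _)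
  have hterm : ∀ i, 0 ≤ (∑ θ ∈ Im n, |cfm n (2 * i) θ|) + nK * (2 * BT n l D i) +
      ∑ θ ∈ Im n, |cfm n (2 * i) θ| * (nK * (∏ c, B0 l D ^ θ c + ∏ c, nm l l (θ c))) := by
    intro i
    have h1 := BT_nonneg n l hl D i
    have h2 : 0 ≤ ∑ θ ∈ Im n, |cfm n (2 * i) θ| := sum_nonneg fun θ _ => abs_nonneg _
    have h3 : 0 ≤ ∑ θ ∈ Im n, |cfm n (2 * i) θ| * (nK * (∏ c, B0 l D ^ θ c + ∏ c, nm l l (θ c))) :=
      sum_nonneg fun θ _ => mul_nonneg (abs_nonneg _) (mul_nonneg (Nat.cast_nonneg _) (hbt θ))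
    positivity
  have hC₁0 : 0 ≤ C₁ := by
    rw [hC₁]
    exact sum_nonneg fun i _ => hterm i
  obtain ⟨c, hc, y₀, h⟩ := genR b g (N * D) 1 ω hω hb hd le_rfl δ hδ A 0 (Im n)
    (fun θ p _ u => GG l N D θ p u) (fun θ p => MG l N θ p) 0 le_rfl
    (fun θ _ => ⟨∏ c, B0 l D ^ θ c + ∏ c, nm l l (θ c), hbt θ, fun p hp => by
      rw [Real.rpow_zero, mul_one]
      constructor
      · intro u
        have h1 := GG_le l hl N D hD θ p u
        have h2 : 0 ≤ ∏ c, nm (l : ℝ) l (θ c) := prod_nonneg fun c _ => nm_nonneg _ _ (Nat.cast_nonneg _) (Nat.cast_nonneg _) _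
        linarith
      · have h1 := MG_le l hl N θ p
        have h2 : 0 ≤ ∏ c : Fin N, B0 l D ^ θ c := by positivity
        linarith⟩)
    (fun θ hθ => mean_all l hl N D hD θ (fun c => ((mem_Im n θ).1 hθ c).trans (hn c)))
  refine ⟨c, hc, C₁, hC₁0, y₀ + 1, fun L r y hrL hy N' hN' f hf E hE => ?_⟩
  refine h L r y hrL (by omega) N' hN' f hf (fun _ => {fun _ => 1}) (fun x => ⟨Set.finite_singleton _, by
    rw [Set.ncard_singleton, pow_zero]⟩) (fun x w hw k => by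
    rw [Set.mem_singleton_iff] at hw
    rw [hw, abs_one]) E fun m hm => hE m fun x hyx hxr i hi => ?_
  have hx1 : 1 ≤ x := by omega
  have hx0 : (0 : ℝ) < x := by exact_mod_cast hx1
  have hx1' : (1 : ℝ) ≤ x := by exact_mod_cast hx1
  -- the law for every exponent
  have key : ∀ θ ∈ Im n, |∑ j ∈ range x, (SF ω (GG l N D θ) (pr j) m - (Nat.card (𝓞 K →+* ZMod (pr j)) : ℝ) * MG l N θ (pr j))| ≤ (x : ℝ) ^ (1 / 2 + δ) := by
    intro θ hθ
    have h1 := hm x hyx hxr (fun _ => 1) (Set.mem_singleton _) (fun _ => θ) (fun _ => hθ)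
    simp only [one_mul, Fin.prod_univ_one, Fin.val_zero, add_zero, one_pow, sum_const, card_range, nsmul_eq_mul, mul_one, mul_zero, zero_add] at h1
    rw [← sum_sub_distrib, max_eq_right hx1'] at h1
    refine h1.trans (le_of_eq ?_)
    rw [Real.sqrt_eq_rpow, ← Real.rpow_add hx0]
  -- the exceptional prime number
  obtain ⟨F, hF⟩ : ∃ F : ℕ → ℝ, F = fun j => ∑ θ ∈ Im n, cfm n (2 * i) θ *
      (SF ω (GG l N D θ) (pr j) m - (Nat.card (𝓞 K →+* ZMod (pr j)) : ℝ) * MG l N θ (pr j)) := ⟨_, rfl⟩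
  have hFE : ∀ j, pr j ≠ l → Ej n l i (pr j) (cf (D := N * D) ω m) = F j := by
    intro j hj
    rw [hF]
    exact Ej_eq n l hl hζ ω i (pr j) m hj
  have hFle : ∀ j, |F j| ≤ ∑ θ ∈ Im n, |cfm n (2 * i) θ| * (nK * (∏ c, B0 l D ^ θ c + ∏ c, nm l l (θ c))) := by
    intro j
    rw [hF]
    refine (abs_sum_le_sum_abs _ _).trans (sum_le_sum fun θ _ => ?_)
    rw [abs_mul]
    apply mul_le_mul_of_nonneg_left _ (abs_nonneg _)
    have : Finite (𝓞 K →+* ZMod (pr j)) := hom_finite (𝓞 K) (pr j)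
    have : Fintype (𝓞 K →+* ZMod (pr j)) := Fintype.ofFinite _
    rw [Pool.Agent.N842.HS.SF_eq]
    have h1 : |∑ φ : 𝓞 K →+* ZMod (pr j), GG l N D θ (pr j) (red ω φ (fun k => (m k : ZMod (pr j))))| ≤ nK * ∏ c, B0 l D ^ θ c := by
      refine (abs_sum_le_sum_abs _ _).trans ((sum_le_sum fun φ _ => GG_le l hl N D hD θ (pr j) _).trans ?_)
      rw [sum_const, card_univ, nsmul_eq_mul, ← Nat.card_eq_fintype_card]
      exact mul_le_mul_of_nonneg_right (by exact_mod_cast hnK (pr j)) (by positivity)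
    have h2 : |(Nat.card (𝓞 K →+* ZMod (pr j)) : ℝ) * MG l N θ (pr j)| ≤ nK * ∏ c, nm (l : ℝ) l (θ c) := by
      rw [abs_mul, Nat.abs_cast]
      exact mul_le_mul (by exact_mod_cast hnK (pr j)) (MG_le l hl N θ (pr j)) (abs_nonneg _) (Nat.cast_nonneg _)
    refine (abs_sub _ _).trans ?_
    rw [mul_add]
    exact add_le_add h1 h2
  have hdiff : |∑ j ∈ range x, (Ej n l i (pr j) (cf (D := N * D) ω m) - F j)| ≤ nK * (2 * BT n l D i) +
      ∑ θ ∈ Im n, |cfm n (2 * i) θ| * (nK * (∏ c, B0 l D ^ θ c + ∏ c, nm l l (θ c))) := by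
    obtain ⟨Z, hZ⟩ : ∃ Z : ℝ, Z = nK * (2 * BT n l D i) + ∑ θ ∈ Im n, |cfm n (2 * i) θ| * (nK * (∏ c, B0 l D ^ θ c + ∏ c, nm l l (θ c))) := ⟨_, rfl⟩
    rw [← hZ]
    have hZb : ∀ j, |Ej n l i (pr j) (cf (D := N * D) ω m) - F j| ≤ Z := by
      intro j
      have h1 := Ej_le n l hl D hD i nK hnK (pr j) (cf (D := N * D) ω m)
      have h2 := hFle j
      rw [hZ]
      exact (abs_sub _ _).trans (add_le_add h1 h2)
    have hZ0 : 0 ≤ Z := (abs_nonneg _).trans (hZb 0)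
    refine (abs_sum_le_sum_abs _ _).trans ?_
    have h1 : ∀ j ∈ range x, |Ej n l i (pr j) (cf (D := N * D) ω m) - F j| ≤ if pr j = l then Z else 0 := by
      intro j _
      by_cases hj : pr j = l
      · rw [if_pos hj]
        exact hZb j
      · rw [if_neg hj, hFE j hj, sub_self, abs_zero]
    refine (sum_le_sum h1).trans ?_
    rw [← sum_filter, sum_const, nsmul_eq_mul]
    have h2 : ((range x).filter (fun j => pr j = l)).card ≤ 1 := by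
      rw [card_le_one]
      intro a ha a' ha'
      rw [mem_filter] at ha ha'
      exact pr_mono.injective (ha.2.trans ha'.2.symm)
    have h3 : (((range x).filter (fun j => pr j = l)).card : ℝ) ≤ 1 := by exact_mod_cast h2
    nlinarith
  have hmain : |∑ j ∈ range x, F j| ≤ (∑ θ ∈ Im n, |cfm n (2 * i) θ|) * (x : ℝ) ^ (1 / 2 + δ) := by
    have e1 : ∑ j ∈ range x, F j = ∑ θ ∈ Im n, cfm n (2 * i) θ *
        ∑ j ∈ range x, (SF ω (GG l N D θ) (pr j) m - (Nat.card (𝓞 K →+* ZMod (pr j)) : ℝ) * MG l N θ (pr j)) := by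
      rw [hF, sum_comm]
      exact sum_congr rfl fun θ _ => (mul_sum _ _ _).symm
    rw [e1, sum_mul]
    refine (abs_sum_le_sum_abs _ _).trans (sum_le_sum fun θ hθ => ?_)
    rw [abs_mul]
    exact mul_le_mul_of_nonneg_left (key θ hθ) (abs_nonneg _)
  have hx1δ : 1 ≤ (x : ℝ) ^ (1 / 2 + δ) := Real.one_le_rpow hx1' (by positivity)
  have hsplit : ∑ j ∈ range x, Ej n l i (pr j) (cf (D := N * D) ω m) = ∑ j ∈ range x, F j +
      ∑ j ∈ range x, (Ej n l i (pr j) (cf (D := N * D) ω m) - F j) := by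
    rw [← sum_add_distrib]
    exact sum_congr rfl fun j _ => by ring
  rw [hsplit]
  refine (abs_add_le _ _).trans ?_
  have hi' : (∑ θ ∈ Im n, |cfm n (2 * i) θ|) + nK * (2 * BT n l D i) +
      ∑ θ ∈ Im n, |cfm n (2 * i) θ| * (nK * (∏ c, B0 l D ^ θ c + ∏ c, nm l l (θ c))) ≤ C₁ := by
    rw [hC₁]
    exact single_le_sum (f := fun i => (∑ θ ∈ Im n, |cfm n (2 * i) θ|) + nK * (2 * BT n l D i) +
      ∑ θ ∈ Im n, |cfm n (2 * i) θ| * (nK * (∏ c, B0 l D ^ θ c + ∏ c, nm l l (θ c)))) (fun i _ => hterm i) (mem_range.2 (by omega))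
  have hZ0 := (abs_nonneg _).trans hdiff
  obtain ⟨Z, hZ⟩ : ∃ Z : ℝ, Z = nK * (2 * BT n l D i) + ∑ θ ∈ Im n, |cfm n (2 * i) θ| * (nK * (∏ c, B0 l D ^ θ c + ∏ c, nm l l (θ c))) := ⟨_, rfl⟩
  rw [← hZ] at hdiff hZ0
  have hi2 : (∑ θ ∈ Im n, |cfm n (2 * i) θ|) + Z ≤ C₁ := by
    rw [hZ]
    linarith
  calc |∑ j ∈ range x, F j| + |∑ j ∈ range x, (Ej n l i (pr j) (cf (D := N * D) ω m) - F j)| ≤
      (∑ θ ∈ Im n, |cfm n (2 * i) θ|) * (x : ℝ) ^ (1 / 2 + δ) + Z * (x : ℝ) ^ (1 / 2 + δ) := by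
        apply add_le_add hmain
        refine hdiff.trans ?_
        exact le_mul_of_one_le_right hZ0 hx1δ
    _ = ((∑ θ ∈ Im n, |cfm n (2 * i) θ|) + Z) * (x : ℝ) ^ (1 / 2 + δ) := by ring
    _ ≤ _ := mul_le_mul_of_nonneg_right hi2 (by positivity)

end

end Pool.Agent.N842.TP
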