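import Pool.Agent.N842.TP.Law
import Pool.Agent.N842.TP.Ana2
import Pool.Agent.N842.SQ.Vp
import Pool.Agent.Y125.XT.Dz

/-!
# The L-functions of the cohomology of products of powers of curves
-/

set_option autoImplicit false

namespace Pool.Agent.N842.TP

open Finset NumberField IsDedekindDomain
open Pool.Agent.N842.SQ
open Pool.Agent.N842.HS (hv VT mem_VT res_char prime_above norm_card absNorm_hv hom_finite hom_card cf sum_deg1 factNth)
open Pool.Agent.H921R2.TatePole (nm_ne_zero two_le_nm ZK ZK_tendsto nm_summable nm_rpow_le_half)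
open Pool.Agent.TH894.NF (pr pr_prime)

attribute [local instance] rsFin exFin

/-- the invariance under isomorphisms -/
lemma A_iso (l : ℕ) {D : ℕ} (p : ℕ) [hp : Fact p.Prime] (E E' : Type) [Field E] [Fintype E] [CharP E p] [Field E'] [Fintype E'] [CharP E' p]
    (σ : E ≃+* E') (u : Fin D → E) : A l D 1 E' (fun i => σ (u i)) = A l D 1 E u := by
  have h1 := val_hom p E E' (σ : E →+* E') l u
  have h2 := val_hom p E' E' (RingHom.id E') l (fun i => σ (u i))
  have h3 : dg p E = dg p E' := by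
    unfold dg
    rw [Fintype.card_congr σ.toEquiv]
  have h4 := (card_dg p E').2
  rw [h3, Nat.div_self (by omega)] at h1
  rw [Nat.div_self (by omega)] at h2
  simp only [RingHom.id_apply] at h2
  have h5 : (fun i => (σ : E →+* E') (u i)) = fun i => σ (u i) := rfl
  rw [h5] at h1
  linarith

section
variable {K : Type} [Field K] [NumberField K]

/-- all the curves have smooth reductions -/
def good (l : ℕ) {N D : ℕ} (v : HeightOneSpectrum (𝓞 K)) (c : Fin (N * D) → 𝓞 K) : Prop :=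
  ∀ e : Fin N, ((l : Rs v) ≠ 0 ∧ (fp (Rs v) (fun i : Fin D => rh v (c (finProdFinEquiv (e, i))))).Separable)

open Classical in
/-- the traces -/
noncomputable def TRv {N : ℕ} (n : Fin N → ℕ) (l : ℕ) {D : ℕ} (i k : ℕ) (v : HeightOneSpectrum (𝓞 K)) (c : Fin (N * D) → 𝓞 K) : ℝ :=
  if good l v c then (Pl n (fun e => - A l D k (Rs v) (fun i : Fin D => rh v (c (finProdFinEquiv (e, i)))))).coeff (2 * i) else 0

lemma TRv_le {N : ℕ} (n : Fin N → ℕ) (l : ℕ) (hl : l.Prime) {D : ℕ} (hD : Nat.Coprime D l) (i k : ℕ) (hk : k ≠ 0) (v : HeightOneSpectrum (𝓞 K))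
    (c : Fin (N * D) → 𝓞 K) : |TRv n l i k v c| ≤ BT n l D i := by
  unfold TRv
  split_ifs with h
  · rw [Pl_coeff]
    unfold BT
    refine (abs_sum_le_sum_abs _ _).trans (sum_le_sum fun θ _ => ?_)
    rw [abs_mul]
    apply mul_le_mul_of_nonneg_left _ (abs_nonneg _)
    have h1 : |∏ e, (- A l D k (Rs v) (fun i : Fin D => rh v (c (finProdFinEquiv (e, i))))) ^ θ e| ≤ ∏ e, B0 l D ^ θ e := by
      rw [abs_prod]
      refine prod_le_prod (fun e _ => abs_nonneg _) fun e _ => ?_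
      rw [abs_pow, abs_neg]
      exact pow_le_pow_left₀ (abs_nonneg _) (A_le l hl D hD k hk (Rs v) _) _
    have h2 : 0 ≤ ∏ e, nm l l (θ e) := prod_nonneg fun e _ => nm_nonneg _ _ (Nat.cast_nonneg _) (Nat.cast_nonneg _) _
    linarith
  · rw [abs_zero]
    exact BT_nonneg n l hl D i

lemma GG_eq (l N D : ℕ) (θ : Fin N → ℕ) (p : ℕ) [hp : Fact p.Prime] (u : Fin (N * D) → ZMod p) [Decidable (∀ e : Fin N, ((l : ZMod p) ≠ 0 ∧ (fp (ZMod p) (fun i : Fin D => u (finProdFinEquiv (e, i)))).Separable))] :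
    GG l N D θ p u = if (∀ e : Fin N, ((l : ZMod p) ≠ 0 ∧ (fp (ZMod p) (fun i : Fin D => u (finProdFinEquiv (e, i)))).Separable)) then
      ∏ e, (- A l D 1 (ZMod p) (fun i : Fin D => u (finProdFinEquiv (e, i)))) ^ θ e else 0 := by
  unfold GG g1
  split_ifs with h
  · exact prod_congr rfl fun e _ => by rw [if_pos (h e)]
  · push Not at h
    obtain ⟨e, he⟩ := h
    apply prod_eq_zero (mem_univ e)
    rw [if_neg]
    exact fun h' => he h'.1 h'.2

lemma hv_char {p : ℕ} [hp : Fact p.Prime] (φ : 𝓞 K →+* ZMod p) : CharP (Rs (hv φ)) p := by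
  have hm : (p : 𝓞 K) ∈ (hv φ).asIdeal := by
    show (p : 𝓞 K) ∈ RingHom.ker φ
    rw [RingHom.mem_ker, map_natCast, ZMod.natCast_self]
  exact rsChar p ⟨hv φ, hm⟩

lemma hv_iso {p : ℕ} [hp : Fact p.Prime] (φ : 𝓞 K →+* ZMod p) : ∃ σ : Rs (hv φ) ≃+* ZMod p, ∀ a, σ (rh (hv φ) a) = φ a :=
  ⟨RingHom.quotientKerEquivOfSurjective (ZMod.ringHom_surjective φ), fun _ => rfl⟩

/-- the traces at the prime ideals of degree one -/
lemma TRv_hv {N : ℕ} (n : Fin N → ℕ) (l : ℕ) {D : ℕ} (i : ℕ) {p : ℕ} [hp : Fact p.Prime] (φ : 𝓞 K →+* ZMod p) (c : Fin (N * D) → 𝓞 K) :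
    TRv n l i 1 (hv φ) c = TRp n l i p (fun k => φ (c k)) := by
  classical
  obtain ⟨σ, hσ⟩ := hv_iso φ
  have hch := hv_char φ
  have h1 : ∀ e : Fin N, (((l : Rs (hv φ)) ≠ 0 ∧ (fp (Rs (hv φ)) (fun i : Fin D => rh (hv φ) (c (finProdFinEquiv (e, i))))).Separable) ↔
      ((l : ZMod p) ≠ 0 ∧ (fp (ZMod p) (fun i : Fin D => φ (c (finProdFinEquiv (e, i))))).Separable)) := by
    intro e
    have h2 : (fp (ZMod p) (fun i : Fin D => φ (c (finProdFinEquiv (e, i))))) =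
        (fp (Rs (hv φ)) (fun i : Fin D => rh (hv φ) (c (finProdFinEquiv (e, i))))).map (σ : Rs (hv φ) →+* ZMod p) := by
      rw [fp_map]
      unfold fp low
      congr 1
      refine sum_congr rfl fun i _ => ?_
      show Polynomial.C (φ (c (finProdFinEquiv (e, i)))) * Polynomial.X ^ (i : ℕ) =
        Polynomial.C (σ (rh (hv φ) (c (finProdFinEquiv (e, i))))) * Polynomial.X ^ (i : ℕ)
      rw [hσ]
    rw [h2, Polynomial.separable_map, ← map_natCast (σ : Rs (hv φ) →+* ZMod p) l, Ne, Ne, map_eq_zero (σ : Rs (hv φ) →+* ZMod p)]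
  have h3 : ∀ e : Fin N, A l D 1 (Rs (hv φ)) (fun i : Fin D => rh (hv φ) (c (finProdFinEquiv (e, i)))) =
      A l D 1 (ZMod p) (fun i : Fin D => φ (c (finProdFinEquiv (e, i)))) := by
    intro e
    rw [← A_iso l p (Rs (hv φ)) (ZMod p) σ]
    simp only [hσ]
  unfold TRv TRp
  by_cases h : good l (hv φ) c
  · have h' : ∀ e : Fin N, ((l : ZMod p) ≠ 0 ∧ (fp (ZMod p) (fun i : Fin D => φ (c (finProdFinEquiv (e, i))))).Separable) := fun e => (h1 e).1 (h e)
    rw [if_pos h, Pl_coeff]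
    refine sum_congr rfl fun θ _ => ?_
    rw [GG_eq, if_pos h']
    simp only [h3]
  · have h' : ¬ ∀ e : Fin N, ((l : ZMod p) ≠ 0 ∧ (fp (ZMod p) (fun i : Fin D => φ (c (finProdFinEquiv (e, i))))).Separable) :=
      fun h2 => h fun e => (h1 e).2 (h2 e)
    rw [if_neg h]
    symm
    apply sum_eq_zero
    intro θ _
    rw [GG_eq, if_neg h', mul_zero]

/-- the terms of the logarithm of the Euler factors of the zeta function -/
noncomputable def term (v : HeightOneSpectrum (𝓞 K)) (k : ℕ) (s : ℝ) : ℝ := ((Ideal.absNorm v.asIdeal : ℕ) : ℝ) ^ (-(((k : ℝ) + 1) * s)) / ((k : ℝ) + 1)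

lemma nm2 (v : HeightOneSpectrum (𝓞 K)) : (2 : ℝ) ≤ ((Ideal.absNorm v.asIdeal : ℕ) : ℝ) := by
  exact_mod_cast two_le_nm v

lemma term_nonneg (v : HeightOneSpectrum (𝓞 K)) (k : ℕ) (s : ℝ) : 0 ≤ term v k s := by
  unfold term
  positivity

lemma term_eq (v : HeightOneSpectrum (𝓞 K)) (k : ℕ) (s : ℝ) :
    term v k s = (((Ideal.absNorm v.asIdeal : ℕ) : ℝ) ^ (-s)) ^ (k + 1) / ((k : ℝ) + 1) := by
  unfold term
  rw [← Real.rpow_natCast, ← Real.rpow_mul (by positivity)]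
  congr 2
  push_cast
  ring

lemma term_hasSum (v : HeightOneSpectrum (𝓞 K)) {s : ℝ} (hs : 1 ≤ s) :
    HasSum (fun k => term v k s) (-Real.log (1 - ((Ideal.absNorm v.asIdeal : ℕ) : ℝ) ^ (-s))) := by
  have h1 : ((Ideal.absNorm v.asIdeal : ℕ) : ℝ) ^ (-s) ≤ 1 / 2 := nm_rpow_le_half v hs
  have h2 : 0 ≤ ((Ideal.absNorm v.asIdeal : ℕ) : ℝ) ^ (-s) := by positivity
  have h3 := Real.hasSum_pow_div_log_of_abs_lt_one (x := ((Ideal.absNorm v.asIdeal : ℕ) : ℝ) ^ (-s)) (by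
    rw [abs_of_nonneg h2]
    linarith)
  have h4 : (fun k => term v k s) = fun k : ℕ => (((Ideal.absNorm v.asIdeal : ℕ) : ℝ) ^ (-s)) ^ (k + 1) / ((k : ℝ) + 1) :=
    funext fun k => term_eq v k s
  rw [h4]
  exact h3

/-- the logarithm of the zeta function -/
lemma logZ_hasSum {s : ℝ} (hs : 1 < s) :
    HasSum (fun v : HeightOneSpectrum (𝓞 K) => -Real.log (1 - ((Ideal.absNorm v.asIdeal : ℕ) : ℝ) ^ (-s))) (Real.log (ZK K s)) := by
  have hpos : ∀ v : HeightOneSpectrum (𝓞 K), 0 < 1 - ((Ideal.absNorm v.asIdeal : ℕ) : ℝ) ^ (-s) := fun v => by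
    have h1 : ((Ideal.absNorm v.asIdeal : ℕ) : ℝ) ^ (-s) ≤ 1 / 2 := nm_rpow_le_half v hs.le
    linarith
  have h := Pool.Agent.Y125.XT.hasProd_ZK (K := K) hs
  have h0 := Pool.Agent.Y125.XT.ZK_pos' (K := K) hs
  have h1 : Filter.Tendsto (fun F : Finset (HeightOneSpectrum (𝓞 K)) => Real.log (∏ v ∈ F, (1 - ((Ideal.absNorm v.asIdeal : ℕ) : ℝ) ^ (-s))⁻¹))
      Filter.atTop (nhds (Real.log (ZK K s))) := Filter.Tendsto.log h h0.ne'
  refine h1.congr fun F => ?_
  rw [Real.log_prod (fun v _ => (inv_pos.2 (hpos v)).ne')]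
  exact sum_congr rfl fun v _ => Real.log_inv _

/-- the local differences -/
noncomputable def dl {N : ℕ} (n : Fin N → ℕ) (l : ℕ) {D : ℕ} (i : ℕ) (c : Fin (N * D) → 𝓞 K) (s : ℝ) (v : HeightOneSpectrum (𝓞 K)) : ℝ :=
  ∑' k : ℕ, (TRv n l i (k + 1) v c - (((Rk n l).coeff i : ℕ) : ℝ)) * term v k s

section
variable {N : ℕ} (n : Fin N → ℕ) (l : ℕ) (hl : l.Prime) {D : ℕ} (hD : Nat.Coprime D l) (i : ℕ) (c : Fin (N * D) → 𝓞 K)
include hl hD

lemma tr_term_summable (v : HeightOneSpectrum (𝓞 K)) {s : ℝ} (hs : 1 ≤ s) : Summable (fun k : ℕ => TRv n l i (k + 1) v c * term v k s) := by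
  refine Summable.of_norm_bounded (g := fun k => BT n l D i * term v k s) ((term_hasSum v hs).summable.mul_left _) fun k => ?_
  rw [norm_mul, Real.norm_eq_abs, Real.norm_eq_abs, abs_of_nonneg (term_nonneg v k s)]
  exact mul_le_mul_of_nonneg_right (TRv_le n l hl hD i (k + 1) (by omega) v c) (term_nonneg v k s)

lemma dl_eq (v : HeightOneSpectrum (𝓞 K)) {s : ℝ} (hs : 1 ≤ s) : dl n l i c s v =
    ∑' k : ℕ, TRv n l i (k + 1) v c * term v k s - (((Rk n l).coeff i : ℕ) : ℝ) * (-Real.log (1 - ((Ideal.absNorm v.asIdeal : ℕ) : ℝ) ^ (-s))) := by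
  unfold dl
  rw [← (term_hasSum v hs).tsum_eq, ← tsum_mul_left, ← Summable.tsum_sub (tr_term_summable n l hl hD i c v hs) ((term_hasSum v hs).summable.mul_left _)]
  exact tsum_congr fun k => by ring

lemma tr_abs (v : HeightOneSpectrum (𝓞 K)) {s : ℝ} (hs : 1 ≤ s) : |∑' k : ℕ, TRv n l i (k + 1) v c * term v k s| ≤
    BT n l D i * (-Real.log (1 - ((Ideal.absNorm v.asIdeal : ℕ) : ℝ) ^ (-s))) := by
  rw [← (term_hasSum v hs).tsum_eq, ← tsum_mul_left, ← Real.norm_eq_abs]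
  refine tsum_of_norm_bounded (((term_hasSum v hs).summable.mul_left (BT n l D i)).hasSum) fun k => ?_
  rw [norm_mul, Real.norm_eq_abs, Real.norm_eq_abs, abs_of_nonneg (term_nonneg v k s)]
  exact mul_le_mul_of_nonneg_right (TRv_le n l hl hD i (k + 1) (by omega) v c) (term_nonneg v k s)

lemma tr_summable {s : ℝ} (hs : 1 < s) : Summable (fun v : HeightOneSpectrum (𝓞 K) => ∑' k : ℕ, TRv n l i (k + 1) v c * term v k s) := by
  refine Summable.of_norm_bounded (g := fun v : HeightOneSpectrum (𝓞 K) => BT n l D i * (-Real.log (1 - ((Ideal.absNorm v.asIdeal : ℕ) : ℝ) ^ (-s))))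
    ((logZ_hasSum hs).summable.mul_left _) fun v => ?_
  rw [Real.norm_eq_abs]
  exact tr_abs n l hl hD i c v hs.le

lemma dl_summable {s : ℝ} (hs : 1 < s) : Summable (fun v : HeightOneSpectrum (𝓞 K) => dl n l i c s v) := by
  have h1 : (fun v : HeightOneSpectrum (𝓞 K) => dl n l i c s v) = fun v => ∑' k : ℕ, TRv n l i (k + 1) v c * term v k s -
      (((Rk n l).coeff i : ℕ) : ℝ) * (-Real.log (1 - ((Ideal.absNorm v.asIdeal : ℕ) : ℝ) ^ (-s))) := funext fun v => dl_eq n l hl hD i c v hs.le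
  rw [h1]
  exact (tr_summable n l hl hD i c hs).sub ((logZ_hasSum hs).summable.mul_left _)

/-- **the logarithm of the L-function** -/
lemma logL_eq {s : ℝ} (hs : 1 < s) : ∑' v : HeightOneSpectrum (𝓞 K), ∑' k : ℕ, TRv n l i (k + 1) v c * term v k s =
    (((Rk n l).coeff i : ℕ) : ℝ) * Real.log (ZK K s) + ∑' v : HeightOneSpectrum (𝓞 K), dl n l i c s v := by
  have h1 : (fun v : HeightOneSpectrum (𝓞 K) => dl n l i c s v) = fun v => ∑' k : ℕ, TRv n l i (k + 1) v c * term v k s -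
      (((Rk n l).coeff i : ℕ) : ℝ) * (-Real.log (1 - ((Ideal.absNorm v.asIdeal : ℕ) : ℝ) ^ (-s))) := funext fun v => dl_eq n l hl hD i c v hs.le
  rw [h1, Summable.tsum_sub (tr_summable n l hl hD i c hs) ((logZ_hasSum hs).summable.mul_left _), tsum_mul_left, (logZ_hasSum hs).tsum_eq]
  ring

/-- the higher terms -/
lemma dl_diff (v : HeightOneSpectrum (𝓞 K)) {s s' : ℝ} (hs : 1 ≤ s) (hs' : 1 ≤ s') :
    |dl n l i c s v - dl n l i c s' v - (TRv n l i 1 v c - (((Rk n l).coeff i : ℕ) : ℝ)) *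
      (((Ideal.absNorm v.asIdeal : ℕ) : ℝ) ^ (-s) - ((Ideal.absNorm v.asIdeal : ℕ) : ℝ) ^ (-s'))| ≤
      8 * BT n l D i * |s - s'| * ((Ideal.absNorm v.asIdeal : ℕ) : ℝ) ^ (-(3 / 2 : ℝ)) := by
  obtain ⟨q, hq⟩ : ∃ q : ℝ, q = ((Ideal.absNorm v.asIdeal : ℕ) : ℝ) := ⟨_, rfl⟩
  have hq2 : 2 ≤ q := by rw [hq]; exact nm2 v
  have hq0 : 0 < q := by linarith
  obtain ⟨R, hR⟩ : ∃ R : ℝ, R = (((Rk n l).coeff i : ℕ) : ℝ) := ⟨_, rfl⟩
  have hBT := BT_nonneg n l hl D i
  have hR1 : |R| ≤ BT n l D i := by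
    rw [hR, Nat.abs_cast]
    exact rk_le n l hl D i
  have hT : ∀ k : ℕ, |TRv n l i (k + 1) v c - R| ≤ 2 * BT n l D i := by
    intro k
    have := TRv_le n l hl hD i (k + 1) (by omega) v c
    refine (abs_sub _ _).trans ?_
    linarith
  have hsum : ∀ s : ℝ, 1 ≤ s → Summable (fun k : ℕ => (TRv n l i (k + 1) v c - R) * term v k s) := by
    intro s hs
    refine Summable.of_norm_bounded (g := fun k => (2 * BT n l D i) * term v k s) ((term_hasSum v hs).summable.mul_left _) fun k => ?_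
    rw [norm_mul, Real.norm_eq_abs, Real.norm_eq_abs, abs_of_nonneg (term_nonneg v k s)]
    exact mul_le_mul_of_nonneg_right (hT k) (term_nonneg v k s)
  have h1 : dl n l i c s v - dl n l i c s' v - (TRv n l i 1 v c - R) * (q ^ (-s) - q ^ (-s')) =
      ∑' k : ℕ, (TRv n l i (k + 2) v c - R) * (term v (k + 1) s - term v (k + 1) s') := by
    have h2 : dl n l i c s v - dl n l i c s' v = ∑' k : ℕ, (TRv n l i (k + 1) v c - R) * (term v k s - term v k s') := by
      unfold dl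
      rw [← hR, ← Summable.tsum_sub (hsum s hs) (hsum s' hs')]
      exact tsum_congr fun k => by ring
    have h3 : Summable (fun k : ℕ => (TRv n l i (k + 1) v c - R) * (term v k s - term v k s')) := by
      have := (hsum s hs).sub (hsum s' hs')
      refine this.congr fun k => ?_
      ring
    rw [h2, h3.tsum_eq_zero_add]
    have h4 : term v 0 s = q ^ (-s) := by
      unfold term
      rw [← hq]
      simp
    have h5 : term v 0 s' = q ^ (-s') := by
      unfold term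
      rw [← hq]
      simp
    rw [h4, h5]
    ring
  rw [← hq, ← hR, h1]
  -- the bound of the terms
  have hlog : Real.log q ≤ 2 * q ^ (1 / 2 : ℝ) := by
    have h2 : 0 < q ^ (1 / 2 : ℝ) := by positivity
    have h3 := Real.log_le_sub_one_of_pos h2
    rw [Real.log_rpow hq0] at h3
    linarith
  have hlog0 : 0 ≤ Real.log q := Real.log_nonneg (by linarith)
  have hterm : ∀ k : ℕ, |term v (k + 1) s - term v (k + 1) s'| ≤ |s - s'| * (Real.log q * q ^ (-(2 : ℝ))) * (1 / 2) ^ k := by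
    intro k
    unfold term
    rw [← hq]
    push_cast
    rw [← sub_div, abs_div, abs_of_pos (by positivity : (0 : ℝ) < (k : ℝ) + 1 + 1), div_le_iff₀ (by positivity)]
    have e1 : ∀ s : ℝ, q ^ (-(((k : ℝ) + 1 + 1) * s)) = (q ^ ((k : ℝ) + 1 + 1)) ^ (-s) := by
      intro s
      rw [← Real.rpow_mul hq0.le]
      congr 1
      ring
    rw [e1, e1]
    have hx1 : 1 ≤ q ^ ((k : ℝ) + 1 + 1) := Real.one_le_rpow (by linarith) (by positivity)
    have h2 := diff_rpow (x := q ^ ((k : ℝ) + 1 + 1)) (σ := 1) (s := s) (s' := s') hx1 hs hs'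
    refine h2.trans ?_
    rw [Real.log_rpow hq0, ← Real.rpow_mul hq0.le]
    have e2 : q ^ (((k : ℝ) + 1 + 1) * (-1)) = q ^ (-(2 : ℝ)) * q ^ (-(k : ℝ)) := by
      rw [← Real.rpow_add hq0]
      congr 1
      ring
    have e3 : q ^ (-(k : ℝ)) ≤ (1 / 2) ^ k := by
      rw [Real.rpow_neg hq0.le, Real.rpow_natCast, one_div, inv_pow]
      exact inv_anti₀ (by positivity) (pow_le_pow_left₀ (by norm_num) hq2 k)
    rw [e2]
    have e4 : 0 ≤ |s - s'| * (((k : ℝ) + 1 + 1) * Real.log q) * q ^ (-(2 : ℝ)) := by positivity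
    calc |s - s'| * (((k : ℝ) + 1 + 1) * Real.log q * (q ^ (-(2 : ℝ)) * q ^ (-(k : ℝ)))) =
        |s - s'| * (((k : ℝ) + 1 + 1) * Real.log q) * q ^ (-(2 : ℝ)) * q ^ (-(k : ℝ)) := by ring
      _ ≤ |s - s'| * (((k : ℝ) + 1 + 1) * Real.log q) * q ^ (-(2 : ℝ)) * (1 / 2) ^ k := mul_le_mul_of_nonneg_left e3 e4
      _ = _ := by ring
  have hgeo : HasSum (fun k : ℕ => 2 * BT n l D i * (|s - s'| * (Real.log q * q ^ (-(2 : ℝ)))) * (1 / 2 : ℝ) ^ k)
      (2 * BT n l D i * (|s - s'| * (Real.log q * q ^ (-(2 : ℝ)))) * 2) := by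
    apply HasSum.mul_left
    have := hasSum_geometric_two
    exact this
  rw [← Real.norm_eq_abs]
  refine (tsum_of_norm_bounded hgeo fun k => ?_).trans ?_
  · rw [norm_mul, Real.norm_eq_abs, Real.norm_eq_abs]
    have h3 := mul_le_mul (hT (k + 1)) (hterm k) (abs_nonneg _) (by positivity)
    refine h3.trans (le_of_eq ?_)
    ring
  · have h4 : Real.log q * q ^ (-(2 : ℝ)) ≤ 2 * q ^ (-(3 / 2 : ℝ)) := by
      have h5 : q ^ (-(3 / 2 : ℝ)) = q ^ (1 / 2 : ℝ) * q ^ (-(2 : ℝ)) := by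
        rw [← Real.rpow_add hq0]
        norm_num
      rw [h5]
      have h6 : 0 < q ^ (-(2 : ℝ)) := by positivity
      nlinarith
    have h7 : 0 ≤ 2 * BT n l D i * |s - s'| * 2 := by positivity
    calc 2 * BT n l D i * (|s - s'| * (Real.log q * q ^ (-(2 : ℝ)))) * 2 = 2 * BT n l D i * |s - s'| * 2 * (Real.log q * q ^ (-(2 : ℝ))) := by ring
      _ ≤ 2 * BT n l D i * |s - s'| * 2 * (2 * q ^ (-(3 / 2 : ℝ))) := mul_le_mul_of_nonneg_left h4 h7
      _ = _ := by ring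

end

end

end Pool.Agent.N842.TP
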