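import Pool.Agent.N842.TP.Pol
import Pool.Agent.N842.HS.NF

/-!
# The local means for the products of powers of curves
-/

set_option autoImplicit false

namespace Pool.Agent.N842.TP

open Finset
open Pool.Agent.N842.SQ
open Pool.Agent.N842.ST (kap kap_nonneg kap_le eta PM mu prod_diff)

open Classical in
/-- the local function of one curve -/
noncomputable def g1 (l : ℕ) (E : Type) [Field E] [Fintype E] {D : ℕ} (m : ℕ) (w : Fin D → E) : ℝ :=
  if (l : E) ≠ 0 ∧ (fp E w).Separable then (- A l D 1 E w) ^ m else 0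

/-- the bound -/
noncomputable def B0 (l D : ℕ) : ℝ := ((l * (D + l + 1) : ℕ) : ℝ)

lemma B0_ge (l : ℕ) (hl : l.Prime) (D : ℕ) : 1 ≤ B0 l D := by
  unfold B0
  have := hl.two_le
  have h : 1 ≤ l * (D + l + 1) := Nat.one_le_iff_ne_zero.2 (by positivity)
  exact_mod_cast h

lemma g1_le (l : ℕ) (hl : l.Prime) (D : ℕ) (hD : Nat.Coprime D l) (E : Type) [Field E] [Fintype E] (m : ℕ) (w : Fin D → E) :
    |g1 l E m w| ≤ B0 l D ^ m := by
  unfold g1
  have hB := B0_ge l hl D
  split_ifs with h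
  · rw [abs_pow, abs_neg]
    exact pow_le_pow_left₀ (abs_nonneg _) (A_le l hl D hD 1 one_ne_zero E w) _
  · rw [abs_zero]
    positivity

lemma nm_abs (v : ℝ) (hv : 0 ≤ v) (L : ℝ) (hvL : v ≤ L) (r : ℕ) : |nm v 0 r| ≤ nm L L r := by
  rw [abs_of_nonneg (nm_nonneg v 0 hv le_rfl r)]
  exact nm_le v 0 L hv le_rfl hvL (hv.trans hvL) r

/-- the mean for one curve -/
lemma mean_one (l : ℕ) (hl : l.Prime) (D : ℕ) (hD : Nat.Coprime D l) (m : ℕ) (hm : m ≤ D) : ∃ C : ℝ, 0 ≤ C ∧
    ∀ (p : ℕ) [Fact p.Prime], |(∑ w : Fin D → ZMod p, g1 l (ZMod p) m w) / (p : ℝ) ^ D - nm (kap p l 1) 0 m| ≤ C / Real.sqrt p := by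
  classical
  have hD0 : D ≠ 0 := by
    rintro rfl
    rw [Nat.coprime_zero_left] at hD
    exact hl.one_lt.ne' hD
  obtain ⟨C, hC0, hC⟩ := local_mean l hl D hD (n := 1) (fun _ => m) (by simpa using hm)
  have hB := B0_ge l hl D
  obtain ⟨L, hL⟩ : ∃ L : ℝ, L = nm l l m := ⟨_, rfl⟩
  have hL0 : 0 ≤ L := by
    rw [hL]
    exact nm_nonneg _ _ (Nat.cast_nonneg _) (Nat.cast_nonneg _) _
  refine ⟨C + D + (B0 l D ^ m + L) * Real.sqrt (l * D), by positivity, fun p hp => ?_⟩
  have hp0 : (0 : ℝ) < p := by exact_mod_cast hp.out.pos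
  have hp1 : (1 : ℝ) ≤ p := by exact_mod_cast hp.out.one_lt.le
  have hsp : 0 < Real.sqrt p := Real.sqrt_pos.2 hp0
  have hcard : (Fintype.card (ZMod p) : ℝ) = p := by rw [ZMod.card]
  by_cases hgood : p ≠ l ∧ ¬ p ∣ D
  · have hlE : ((l : ℕ) : ZMod p) ≠ 0 := by
      intro h
      exact hgood.1 ((Nat.prime_dvd_prime_iff_eq hp.out hl).1 ((ZMod.natCast_eq_zero_iff l p).1 h))
    have hDE : ((D : ℕ) : ZMod p) ≠ 0 := by
      intro h
      exact hgood.2 ((ZMod.natCast_eq_zero_iff D p).1 h)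
    have hfin : ∀ x : ℝ, x ≤ (C + D) / Real.sqrt p → x ≤ (C + D + (B0 l D ^ m + L) * Real.sqrt (l * D)) / Real.sqrt p := by
      intro x hx
      refine hx.trans (div_le_div_of_nonneg_right ?_ hsp.le)
      have : 0 ≤ (B0 l D ^ m + L) * Real.sqrt (l * D) := by positivity
      linarith
    apply hfin
    by_cases hm0 : m = 0
    · -- the proportion of the smooth curves
      subst hm0
      obtain ⟨d, rfl⟩ : ∃ d, D = d + 1 := ⟨D - 1, by omega⟩
      have hb := bad_card (ZMod p) (d := d) hDE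
      rw [ZMod.card] at hb
      have h1 : ∑ w : Fin (d + 1) → ZMod p, g1 l (ZMod p) 0 w = (p : ℝ) ^ (d + 1) -
          (((univ : Finset (Fin (d + 1) → ZMod p)).filter (fun u => ¬ (fp (ZMod p) u).Separable)).card : ℝ) := by
        have h2 : ∀ w : Fin (d + 1) → ZMod p, g1 l (ZMod p) 0 w = 1 - (if ¬ (fp (ZMod p) w).Separable then 1 else 0) := by
          intro w
          unfold g1
          by_cases h3 : (fp (ZMod p) w).Separable
          · rw [if_pos ⟨hlE, h3⟩, if_neg (not_not.2 h3), pow_zero, sub_zero]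
          · rw [if_neg (fun h => h3 h.2), if_pos h3, sub_self]
        rw [sum_congr rfl (fun w _ => h2 w), sum_sub_distrib, sum_const, card_univ, Fintype.card_fun, Fintype.card_fin, ZMod.card, nsmul_eq_mul, mul_one,
          card_filter]
        push_cast
        rfl
      rw [h1, nm_zero]
      have h4 : (0 : ℝ) < (p : ℝ) ^ (d + 1) := by positivity
      have h5 : ((p : ℝ) ^ (d + 1) - (((univ : Finset (Fin (d + 1) → ZMod p)).filter (fun u => ¬ (fp (ZMod p) u).Separable)).card : ℝ)) / (p : ℝ) ^ (d + 1) - 1 =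
          - ((((univ : Finset (Fin (d + 1) → ZMod p)).filter (fun u => ¬ (fp (ZMod p) u).Separable)).card : ℝ) / (p : ℝ) ^ (d + 1)) := by
        field_simp
        ring
      rw [h5, abs_neg, abs_of_nonneg (by positivity), div_le_div_iff₀ h4 hsp]
      have h6 : Real.sqrt p ≤ p := by
        rw [Real.sqrt_le_left hp0.le]
        nlinarith
      have h7 : (((univ : Finset (Fin (d + 1) → ZMod p)).filter (fun u => ¬ (fp (ZMod p) u).Separable)).card : ℝ) ≤ (d + 1) * (p : ℝ) ^ d := by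
        exact_mod_cast hb
      calc (((univ : Finset (Fin (d + 1) → ZMod p)).filter (fun u => ¬ (fp (ZMod p) u).Separable)).card : ℝ) * Real.sqrt p ≤
          ((d + 1) * (p : ℝ) ^ d) * p := mul_le_mul h7 h6 hsp.le (by positivity)
        _ = ((d + 1 : ℕ) : ℝ) * (p : ℝ) ^ (d + 1) := by
            push_cast
            ring
        _ ≤ _ := mul_le_mul_of_nonneg_right (by linarith) h4.le
    · have h1 : ∀ w : Fin D → ZMod p, g1 l (ZMod p) m w = (-1) ^ m * A l D 1 (ZMod p) w ^ m := by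
        intro w
        unfold g1
        by_cases h3 : ((l : ZMod p) ≠ 0 ∧ (fp (ZMod p) w).Separable)
        · rw [if_pos h3, neg_pow]
        · rw [if_neg h3]
          unfold A
          rw [if_neg h3, zero_pow hm0, mul_zero]
      have h2 := hC (ZMod p) hlE hDE
      rw [hcard] at h2
      have e1 : av (ZMod p) (fun u : Fin D → ZMod p => ∏ j : Fin 1, A l D ((j : ℕ) + 1) (ZMod p) u ^ m) = (∑ w : Fin D → ZMod p, A l D 1 (ZMod p) w ^ m) / (p : ℝ) ^ D := by
        unfold av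
        rw [hcard]
        congr 1
        refine sum_congr rfl fun w _ => ?_
        beta_reduce
        rw [Fin.prod_univ_one]
        rfl
      have heta : eta p l 1 = 0 := by
        unfold eta
        rw [if_neg (fun h => by simp at h)]
      have e2 : PM l (Fintype.card (ZMod p)) (fun _ : Fin 1 => m) = nm (kap p l 1) 0 m := by
        unfold PM
        rw [Fin.prod_univ_one, ZMod.card]
        show mu (((0 : Fin 1) : ℕ) + 1) (kap p l (((0 : Fin 1) : ℕ) + 1)) (eta p l (((0 : Fin 1) : ℕ) + 1)) m = _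
        simp only [Fin.val_zero, zero_add]
        rw [heta, mu_eq]
        push_cast
        rw [one_mul]
      rw [e1, e2] at h2
      have e3 : nm (kap p l 1) 0 m = (-1) ^ m * nm (kap p l 1) 0 m := by
        have := nm_neg (kap p l 1) 0 m
        rwa [neg_zero] at this
      rw [e3, sum_congr rfl (fun w _ => h1 w), ← mul_sum, mul_div_assoc, ← mul_sub, abs_mul, abs_pow, abs_neg, abs_one, one_pow, one_mul]
      refine h2.trans (div_le_div_of_nonneg_right ?_ hsp.le)
      have : (0 : ℝ) ≤ D := Nat.cast_nonneg _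
      linarith
  · have hpl : p ≤ l * D := by
      by_cases h4 : p = l
      · rw [h4]
        exact Nat.le_mul_of_pos_right _ (by omega)
      · have h5 : p ∣ D := by
          by_contra h6
          exact hgood ⟨h4, h6⟩
        exact (Nat.le_of_dvd (by omega) h5).trans (Nat.le_mul_of_pos_left _ hl.pos)
    have h5 : |(∑ w : Fin D → ZMod p, g1 l (ZMod p) m w) / (p : ℝ) ^ D| ≤ B0 l D ^ m := by
      have h4 : (0 : ℝ) < (p : ℝ) ^ D := by positivity
      rw [abs_div, abs_of_pos h4, div_le_iff₀ h4]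
      refine (abs_sum_le_sum_abs _ _).trans ((sum_le_sum fun w _ => g1_le l hl D hD (ZMod p) m w).trans (le_of_eq ?_))
      rw [sum_const, card_univ, Fintype.card_fun, Fintype.card_fin, ZMod.card, nsmul_eq_mul]
      push_cast
      ring
    have h6 : |nm (kap p l 1) 0 m| ≤ L := by
      rw [hL]
      exact nm_abs _ (kap_nonneg p hl 1) _ (kap_le p hl 1) m
    have h7 : Real.sqrt p ≤ Real.sqrt (l * D) := by
      apply Real.sqrt_le_sqrt
      exact_mod_cast hpl
    rw [le_div_iff₀ hsp]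
    have h8 := (abs_sub ((∑ w : Fin D → ZMod p, g1 l (ZMod p) m w) / (p : ℝ) ^ D) (nm (kap p l 1) 0 m)).trans (add_le_add h5 h6)
    calc |(∑ w : Fin D → ZMod p, g1 l (ZMod p) m w) / (p : ℝ) ^ D - nm (kap p l 1) 0 m| * Real.sqrt p ≤ (B0 l D ^ m + L) * Real.sqrt (l * D) :=
          mul_le_mul h8 h7 hsp.le (by positivity)
      _ ≤ _ := by
        have : (0 : ℝ) ≤ D := Nat.cast_nonneg _
        linarith

/-- the local functions -/
noncomputable def GG (l N D : ℕ) (θ : Fin N → ℕ) (p : ℕ) [Fact p.Prime] (u : Fin (N * D) → ZMod p) : ℝ :=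
  ∏ c : Fin N, g1 l (ZMod p) (θ c) (fun i : Fin D => u (finProdFinEquiv (c, i)))

/-- the main values -/
noncomputable def MG (l N : ℕ) (θ : Fin N → ℕ) (p : ℕ) : ℝ := ∏ c : Fin N, nm (kap p l 1) 0 (θ c)

lemma GG_le (l : ℕ) (hl : l.Prime) (N D : ℕ) (hD : Nat.Coprime D l) (θ : Fin N → ℕ) (p : ℕ) [hp : Fact p.Prime] (u : Fin (N * D) → ZMod p) :
    |GG l N D θ p u| ≤ ∏ c, B0 l D ^ θ c := by
  unfold GG
  rw [abs_prod]
  exact prod_le_prod (fun c _ => abs_nonneg _) fun c _ => g1_le l hl D hD _ _ _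

lemma MG_le (l : ℕ) (hl : l.Prime) (N : ℕ) (θ : Fin N → ℕ) (p : ℕ) : |MG l N θ p| ≤ ∏ c, nm l l (θ c) := by
  unfold MG
  rw [abs_prod]
  exact prod_le_prod (fun c _ => abs_nonneg _) fun c _ => nm_abs _ (kap_nonneg p hl 1) _ (kap_le p hl 1) _

/-- **the local means** -/
theorem mean_all (l : ℕ) (hl : l.Prime) (N D : ℕ) (hD : Nat.Coprime D l) (θ : Fin N → ℕ) (hθ : ∀ c, θ c ≤ D) : ∃ C : ℝ, 0 ≤ C ∧
    ∀ (p : ℕ) [Fact p.Prime], |(∑ u : Fin (N * D) → ZMod p, GG l N D θ p u) / (p : ℝ) ^ (N * D) - MG l N θ p| ≤ C / Real.sqrt p := by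
  classical
  have hch : ∀ c : Fin N, ∃ C : ℝ, 0 ≤ C ∧ ∀ (p : ℕ) [Fact p.Prime],
      |(∑ w : Fin D → ZMod p, g1 l (ZMod p) (θ c) w) / (p : ℝ) ^ D - nm (kap p l 1) 0 (θ c)| ≤ C / Real.sqrt p :=
    fun c => mean_one l hl D hD (θ c) (hθ c)
  choose C hC0 hC using hch
  have hB := B0_ge l hl D
  obtain ⟨M, hM⟩ : ∃ M : ℝ, M = 1 + ∑ c, (B0 l D ^ θ c + nm l l (θ c)) := ⟨_, rfl⟩
  have hpos : ∀ c, 0 ≤ B0 l D ^ θ c + nm l l (θ c) := fun c =>
    add_nonneg (by positivity) (nm_nonneg _ _ (Nat.cast_nonneg _) (Nat.cast_nonneg _) _)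
  have hM1 : 1 ≤ M := by
    rw [hM]
    have := sum_nonneg fun c (_ : c ∈ (univ : Finset (Fin N))) => hpos c
    linarith
  have hMc : ∀ c, B0 l D ^ θ c + nm l l (θ c) ≤ M := by
    intro c
    rw [hM]
    have := single_le_sum (f := fun c => B0 l D ^ θ c + nm l l (θ c)) (fun c _ => hpos c) (mem_univ c)
    linarith
  refine ⟨M ^ N * ∑ c, C c, mul_nonneg (by positivity) (sum_nonneg fun c _ => hC0 c), fun p hp => ?_⟩
  have hp0 : (0 : ℝ) < p := by exact_mod_cast hp.out.pos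
  have e1 : (∑ u : Fin (N * D) → ZMod p, GG l N D θ p u) / (p : ℝ) ^ (N * D) = ∏ c, ((∑ w : Fin D → ZMod p, g1 l (ZMod p) (θ c) w) / (p : ℝ) ^ D) := by
    rw [prod_div_distrib, prod_const, card_univ, Fintype.card_fin, ← pow_mul, mul_comm D N]
    congr 1
    have h1 : ∏ c : Fin N, ∑ w : Fin D → ZMod p, g1 l (ZMod p) (θ c) w = ∑ x : Fin N → Fin D → ZMod p, ∏ c, g1 l (ZMod p) (θ c) (x c) := by
      rw [← Finset.sum_prod_piFinset, Fintype.piFinset_univ]
    rw [h1]
    refine Fintype.sum_equiv ((Equiv.arrowCongr finProdFinEquiv (Equiv.refl (ZMod p))).symm.trans (Equiv.curry (Fin N) (Fin D) (ZMod p))) _ _ fun u => ?_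
    rfl
  rw [e1]
  unfold MG
  have h2 := prod_diff univ (fun c => (∑ w : Fin D → ZMod p, g1 l (ZMod p) (θ c) w) / (p : ℝ) ^ D) (fun c => nm (kap p l 1) 0 (θ c)) M hM1
    (fun c _ => by
      have h4 : (0 : ℝ) < (p : ℝ) ^ D := by positivity
      have h5 : |(∑ w : Fin D → ZMod p, g1 l (ZMod p) (θ c) w) / (p : ℝ) ^ D| ≤ B0 l D ^ θ c := by
        rw [abs_div, abs_of_pos h4, div_le_iff₀ h4]
        refine (abs_sum_le_sum_abs _ _).trans ((sum_le_sum fun w _ => g1_le l hl D hD (ZMod p) (θ c) w).trans (le_of_eq ?_))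
        rw [sum_const, card_univ, Fintype.card_fun, Fintype.card_fin, ZMod.card, nsmul_eq_mul]
        push_cast
        ring
      have h6 := hMc c
      have h7 : 0 ≤ nm l l (θ c) := nm_nonneg _ _ (Nat.cast_nonneg _) (Nat.cast_nonneg _) _
      linarith)
    (fun c _ => by
      have h6 := hMc c
      have h7 : 0 ≤ B0 l D ^ θ c := by positivity
      have h8 := nm_abs _ (kap_nonneg p hl 1) _ (kap_le p hl 1) (θ c)
      linarith)
  refine h2.trans ?_
  rw [card_univ, Fintype.card_fin, mul_div_assoc, sum_div]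
  apply mul_le_mul_of_nonneg_left _ (by positivity)
  exact sum_le_sum fun c _ => hC c p

end Pool.Agent.N842.TP
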