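import Pool.Agent.N842.SQ.Sep
import Pool.Agent.N842.SQ.Nm

/-!
# The traces on the cohomology of products of powers of curves
-/

set_option autoImplicit false

namespace Pool.Agent.N842.TP

open Finset Polynomial
open Pool.Agent.N842.SQ (nm)
open Pool.Agent.Y57.FD.Mom (normal)
open scoped Nat

section
variable {N : ℕ} (n : Fin N → ℕ)

/-- the generating polynomial of the traces -/
noncomputable def Pl (t : Fin N → ℝ) : ℝ[X] := ∏ c, (1 + C (t c) * X + X ^ 2) ^ n c

/-- the exponents -/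
def Im : Finset (Fin N → ℕ) := Fintype.piFinset (fun c => range (n c + 1))

lemma mem_Im (m : Fin N → ℕ) : m ∈ Im n ↔ ∀ c, m c ≤ n c := by
  unfold Im
  rw [Fintype.mem_piFinset]
  exact forall_congr' fun c => by rw [mem_range]; omega

/-- the coefficients -/
noncomputable def cfm (i : ℕ) (m : Fin N → ℕ) : ℝ :=
  (∏ c, (((n c).choose (m c) : ℕ) : ℝ[X]) * X ^ m c * (1 + X ^ 2) ^ (n c - m c)).coeff i

/-- products of sums -/
lemma gen_coeff (μ : Fin N → ℕ → ℝ) (i : ℕ) :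
    (∏ c, ∑ m ∈ range (n c + 1), (((n c).choose m : ℕ) : ℝ[X]) * C (μ c m) * X ^ m * (1 + X ^ 2) ^ (n c - m)).coeff i =
      ∑ m ∈ Im n, cfm n i m * ∏ c, μ c (m c) := by
  rw [prod_univ_sum (fun c => range (n c + 1)) (fun c m => (((n c).choose m : ℕ) : ℝ[X]) * C (μ c m) * X ^ m * (1 + X ^ 2) ^ (n c - m)), finsetSum_coeff]
  refine sum_congr rfl fun m _ => ?_
  have h1 : ∏ c, (((n c).choose (m c) : ℕ) : ℝ[X]) * C (μ c (m c)) * X ^ m c * (1 + X ^ 2) ^ (n c - m c) =
      C (∏ c, μ c (m c)) * ∏ c, (((n c).choose (m c) : ℕ) : ℝ[X]) * X ^ m c * (1 + X ^ 2) ^ (n c - m c) := by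
    rw [map_prod, ← prod_mul_distrib]
    exact prod_congr rfl fun c _ => by ring
  rw [h1, coeff_C_mul]
  unfold cfm
  ring

lemma Pl_coeff (t : Fin N → ℝ) (i : ℕ) : (Pl n t).coeff i = ∑ m ∈ Im n, cfm n i m * ∏ c, t c ^ m c := by
  rw [← gen_coeff n (fun c m => t c ^ m) i]
  unfold Pl
  congr 1
  refine prod_congr rfl fun c _ => ?_
  have h1 : (1 + C (t c) * X + X ^ 2 : ℝ[X]) = C (t c) * X + (1 + X ^ 2) := by ring
  rw [h1, add_pow]
  refine sum_congr rfl fun m _ => ?_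
  rw [mul_pow, C_pow]
  ring

/-- the polynomial of the ranks -/
noncomputable def Rk (l : ℕ) : ℕ[X] :=
  ∏ c, ∑ j ∈ range (n c / 2 + 1), ((((n c).choose (2 * j)) * (2 * j - 1)‼ * (l - 1) ^ j : ℕ) : ℕ[X]) * X ^ j * (1 + X) ^ (n c - 2 * j)

lemma nm_zero_mean (v : ℝ) (r : ℕ) : nm v 0 r = normal r * v ^ (r / 2) := by
  unfold nm
  rw [sum_range_succ, sum_eq_zero]
  · rw [Nat.choose_self, Nat.sub_self]
    ring
  · intro i hi
    rw [mem_range] at hi
    rw [zero_pow (by omega : r - i ≠ 0)]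
    ring

lemma rank_eq (l : ℕ) (hl : 1 ≤ l) (i : ℕ) :
    ∑ m ∈ Im n, cfm n (2 * i) m * ∏ c, nm ((l : ℝ) - 1) 0 (m c) = (((Rk n l).coeff i : ℕ) : ℝ) := by
  rw [← gen_coeff n (fun _ m => nm ((l : ℝ) - 1) 0 m) (2 * i)]
  have h1 : ∀ k : ℕ, ∑ m ∈ range (k + 1), ((k.choose m : ℕ) : ℝ[X]) * C (nm ((l : ℝ) - 1) 0 m) * X ^ m * (1 + X ^ 2) ^ (k - m) =
      expand ℝ 2 ((∑ j ∈ range (k / 2 + 1), (((k.choose (2 * j)) * (2 * j - 1)‼ * (l - 1) ^ j : ℕ) : ℕ[X]) * X ^ j * (1 + X) ^ (k - 2 * j)).map (Nat.castRingHom ℝ)) := by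
    intro k
    rw [Polynomial.map_sum, map_sum]
    have h2 : ∀ m : ℕ, ¬ Even m → ((k.choose m : ℕ) : ℝ[X]) * C (nm ((l : ℝ) - 1) 0 m) * X ^ m * (1 + X ^ 2) ^ (k - m) = 0 := by
      intro m hm
      rw [nm_zero_mean]
      unfold normal
      rw [if_neg hm, zero_mul, C_0]
      ring
    symm
    refine sum_bij_ne_zero (fun j _ _ => 2 * j) ?_ ?_ ?_ ?_
    · intro j hj _
      rw [mem_range] at hj ⊢
      omega
    · intro j _ _ j' _ _ h
      omega
    · intro m hm hne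
      rw [mem_range] at hm
      have hev : Even m := by
        by_contra h
        exact hne (h2 m h)
      obtain ⟨j, hj⟩ := hev
      refine ⟨j, by rw [mem_range]; omega, ?_, by omega⟩
      have e0 : m = 2 * j := by omega
      have e1 : nm ((l : ℝ) - 1) 0 (2 * j) = ((2 * j - 1)‼ : ℝ) * ((l : ℝ) - 1) ^ j := by
        rw [nm_zero_mean]
        unfold normal
        rw [if_pos (even_two_mul j), Nat.mul_div_cancel_left _ (by norm_num)]
      have e2 : expand ℝ 2 ((((k.choose (2 * j)) * (2 * j - 1)‼ * (l - 1) ^ j : ℕ) : ℕ[X]) * X ^ j * (1 + X) ^ (k - 2 * j) |>.map (Nat.castRingHom ℝ)) =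
          ((k.choose (2 * j) : ℕ) : ℝ[X]) * C (nm ((l : ℝ) - 1) 0 (2 * j)) * X ^ (2 * j) * (1 + X ^ 2) ^ (k - 2 * j) := by
        rw [e1]
        simp only [Polynomial.map_mul, Polynomial.map_natCast, Polynomial.map_pow, map_X, Polynomial.map_add, Polynomial.map_one, map_mul, map_pow,
          expand_X, map_add, map_sub, map_one, map_natCast]
        push_cast
        rw [Nat.cast_sub hl]
        push_cast
        ring
      rw [e2, ← e0]
      exact hne
    · intro j hj _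
      have e1 : nm ((l : ℝ) - 1) 0 (2 * j) = ((2 * j - 1)‼ : ℝ) * ((l : ℝ) - 1) ^ j := by
        rw [nm_zero_mean]
        unfold normal
        rw [if_pos (even_two_mul j), Nat.mul_div_cancel_left _ (by norm_num)]
      rw [e1]
      simp only [Polynomial.map_mul, Polynomial.map_natCast, Polynomial.map_pow, map_X, Polynomial.map_add, Polynomial.map_one, map_mul, map_pow,
        expand_X, map_add, map_sub, map_one, map_natCast]
      push_cast
      rw [Nat.cast_sub hl]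
      push_cast
      ring
  have h3 : ∏ c, ∑ m ∈ range (n c + 1), (((n c).choose m : ℕ) : ℝ[X]) * C (nm ((l : ℝ) - 1) 0 m) * X ^ m * (1 + X ^ 2) ^ (n c - m) =
      expand ℝ 2 ((Rk n l).map (Nat.castRingHom ℝ)) := by
    unfold Rk
    rw [Polynomial.map_prod, map_prod]
    exact prod_congr rfl fun c _ => h1 (n c)
  rw [h3, mul_comm 2 i, coeff_expand_mul (by norm_num), coeff_map]
  rfl

end

end Pool.Agent.N842.TP
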