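import Pool.Agent.N842.TP.Lf

/-!
# The L-functions near the edge of absolute convergence
-/

set_option autoImplicit false

namespace Pool.Agent.N842.TP

open Finset NumberField IsDedekindDomain Filter Topology
open Pool.Agent.N842.SQ
open Pool.Agent.N842.HS (hv VT mem_VT res_char prime_above norm_card absNorm_hv hom_finite hom_card cf sum_deg1 factNth)
open Pool.Agent.H921R2.TatePole (nm_ne_zero two_le_nm ZK ZK_tendsto nm_summable nm_rpow_le_half)
open Pool.Agent.TH894.NF (pr pr_prime)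

section
variable (K : Type) [Field K] [NumberField K]

/-- the prime ideals of higher degree -/
lemma high_sum : ∃ Ch : ℝ, 0 ≤ Ch ∧ ∀ T : ℕ, ∑ v ∈ (VT K T).filter (fun v => ¬ (Ideal.absNorm v.asIdeal).Prime),
    ((Ideal.absNorm v.asIdeal : ℕ) : ℝ) ^ (-(3 / 4 : ℝ)) ≤ Ch := by
  classical
  have hsum : Summable (fun m : ℕ => (m : ℝ) ^ (-(3 / 2 : ℝ))) := Real.summable_nat_rpow.2 (by norm_num)
  refine ⟨(Module.finrank ℤ (𝓞 K)) * ∑' m : ℕ, (m : ℝ) ^ (-(3 / 2 : ℝ)), mul_nonneg (Nat.cast_nonneg _) (tsum_nonneg fun m => by positivity), fun T => ?_⟩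
  choose P f hP hf hPf hPv using res_char (K := K)
  have h1 : ∀ v ∈ (VT K T).filter (fun v => ¬ (Ideal.absNorm v.asIdeal).Prime), P v ∈ range (T + 1) ∧
      ((Ideal.absNorm v.asIdeal : ℕ) : ℝ) ^ (-(3 / 4 : ℝ)) ≤ (P v : ℝ) ^ (-(3 / 2 : ℝ)) := by
    intro v hv1
    rw [mem_filter, mem_VT] at hv1
    have h2 : 2 ≤ f v := by
      by_contra hcon
      have h3 : f v = 1 := by
        have := hf v
        omega
      apply hv1.2
      rw [hPf v, h3, pow_one]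
      exact hP v
    have hp0 : (0 : ℝ) < P v := by exact_mod_cast (hP v).pos
    constructor
    · rw [mem_range, Nat.lt_succ_iff]
      refine le_trans ?_ hv1.1
      rw [hPf v]
      exact Nat.le_self_pow (by omega) _
    · have h3 : (P v : ℝ) ^ 2 ≤ ((Ideal.absNorm v.asIdeal : ℕ) : ℝ) := by
        rw [hPf v]
        push_cast
        exact pow_le_pow_right₀ (by exact_mod_cast (hP v).one_lt.le) h2
      have h4 : (P v : ℝ) ^ (-(3 / 2 : ℝ)) = ((P v : ℝ) ^ 2) ^ (-(3 / 4 : ℝ)) := by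
        rw [← Real.rpow_natCast, ← Real.rpow_mul hp0.le]
        norm_num
      rw [h4]
      exact Real.rpow_le_rpow_of_nonpos (by positivity) h3 (by norm_num)
  refine (sum_le_sum fun v hv1 => (h1 v hv1).2).trans ?_
  rw [← sum_fiberwise_of_maps_to (g := fun v => P v) (t := range (T + 1)) (fun v hv1 => (h1 v hv1).1)]
  have h2 : ∀ p ∈ range (T + 1), ∑ v ∈ ((VT K T).filter (fun v => ¬ (Ideal.absNorm v.asIdeal).Prime)).filter (fun v => P v = p),
      (P v : ℝ) ^ (-(3 / 2 : ℝ)) ≤ (Module.finrank ℤ (𝓞 K)) * (p : ℝ) ^ (-(3 / 2 : ℝ)) := by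
    intro p _
    have h3 : ∀ v ∈ ((VT K T).filter (fun v => ¬ (Ideal.absNorm v.asIdeal).Prime)).filter (fun v => P v = p),
        (P v : ℝ) ^ (-(3 / 2 : ℝ)) = (p : ℝ) ^ (-(3 / 2 : ℝ)) := by
      intro v hv1
      rw [mem_filter] at hv1
      rw [hv1.2]
    rw [sum_congr rfl h3, sum_const, nsmul_eq_mul]
    apply mul_le_mul_of_nonneg_right _ (by positivity)
    by_cases hp' : p.Prime
    · exact_mod_cast prime_above K p hp' _ fun v hv1 => by
        rw [mem_filter] at hv1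
        rw [← hv1.2]
        exact hPv v
    · have h3 : (((VT K T).filter (fun v => ¬ (Ideal.absNorm v.asIdeal).Prime)).filter (fun v => P v = p)) = ∅ := by
        rw [filter_eq_empty_iff]
        intro v _ h
        rw [← h] at hp'
        exact hp' (hP v)
      rw [h3, card_empty, Nat.cast_zero]
      exact Nat.cast_nonneg _
  refine (sum_le_sum h2).trans ?_
  rw [← mul_sum]
  exact mul_le_mul_of_nonneg_left (hsum.sum_le_tsum _ fun m _ => by positivity) (Nat.cast_nonneg _)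

lemma VT_tendsto : Tendsto (fun T : ℕ => VT K T) atTop atTop := by
  classical
  apply tendsto_atTop_finset_of_monotone
  · intro a b hab v hv1
    rw [mem_VT] at hv1 ⊢
    exact hv1.trans hab
  · intro v
    exact ⟨Ideal.absNorm v.asIdeal, (mem_VT _ v).2 le_rfl⟩

variable {K}

/-- the sum over the prime ideals of degree one -/
lemma deg1_sum {N : ℕ} (n : Fin N → ℕ) (l : ℕ) {D : ℕ} (i : ℕ) (c : Fin (N * D) → 𝓞 K) (s s' : ℝ) (T : ℕ) :
    ∑ v ∈ (VT K T).filter (fun v => (Ideal.absNorm v.asIdeal).Prime), (TRv n l i 1 v c - (((Rk n l).coeff i : ℕ) : ℝ)) *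
      (((Ideal.absNorm v.asIdeal : ℕ) : ℝ) ^ (-s) - ((Ideal.absNorm v.asIdeal : ℕ) : ℝ) ^ (-s')) =
    ∑ k ∈ range (Nat.primeCounting T), Ej n l i (pr k) c * ((pr k : ℝ) ^ (-s) - (pr k : ℝ) ^ (-s')) := by
  rw [sum_deg1 T (fun v => (TRv n l i 1 v c - (((Rk n l).coeff i : ℕ) : ℝ)) *
      (((Ideal.absNorm v.asIdeal : ℕ) : ℝ) ^ (-s) - ((Ideal.absNorm v.asIdeal : ℕ) : ℝ) ^ (-s')))]
  refine sum_congr rfl fun k _ => ?_
  have hfin : Finite (𝓞 K →+* ZMod (pr k)) := hom_finite (𝓞 K) (pr k)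
  have : Fintype (𝓞 K →+* ZMod (pr k)) := Fintype.ofFinite _
  have h1 : ∑ᶠ φ : (e : Fin 1) → (𝓞 K →+* ZMod (Nat.nth Nat.Prime (k + e))), (TRv n l i 1 (hv (φ 0)) c - (((Rk n l).coeff i : ℕ) : ℝ)) *
      (((Ideal.absNorm (hv (φ 0)).asIdeal : ℕ) : ℝ) ^ (-s) - ((Ideal.absNorm (hv (φ 0)).asIdeal : ℕ) : ℝ) ^ (-s')) =
      ∑ᶠ φ : 𝓞 K →+* ZMod (pr k), (TRp n l i (pr k) (fun k => φ (c k)) - (((Rk n l).coeff i : ℕ) : ℝ)) *
      ((pr k : ℝ) ^ (-s) - (pr k : ℝ) ^ (-s')) := by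
    refine finsum_eq_of_bijective (e := fun φ : (e : Fin 1) → (𝓞 K →+* ZMod (Nat.nth Nat.Prime (k + e))) => (φ 0 : 𝓞 K →+* ZMod (pr k))) ?_ ?_
    · constructor
      · intro φ φ' h
        funext e
        have he : e = 0 := Subsingleton.elim _ _
        subst he
        exact h
      · intro φ
        refine ⟨fun e => ?_, ?_⟩
        · exact (by
            have he : (e : ℕ) = 0 := by omega
            rw [he]
            exact φ)
        · rfl
    · intro φ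
      have h2 : TRv n l i 1 (hv (φ 0)) c = TRp n l i (pr k) (fun k' => (φ 0 : 𝓞 K →+* ZMod (pr k)) (c k')) :=
        TRv_hv n l i (p := pr k) (φ 0) c
      have h3 : Ideal.absNorm (hv (φ 0)).asIdeal = pr k := absNorm_hv (φ 0)
      rw [h2, h3]
      rfl
  rw [h1]
  unfold Ej
  rw [finsum_eq_sum_of_fintype, finsum_eq_sum_of_fintype, sum_mul]

/-- **the differences of the logarithms** -/
theorem total (K : Type) [Field K] [NumberField K] {N : ℕ} (n : Fin N → ℕ) (l : ℕ) (hl : l.Prime) {D : ℕ} (hD : Nat.Coprime D l) (i : ℕ)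
    {β : ℝ} (hβ0 : 0 < β) (hβ1 : β < 1) : ∃ C₂ : ℝ, 0 ≤ C₂ ∧ ∀ (c : Fin (N * D) → 𝓞 K) (C₁ : ℝ), 0 ≤ C₁ → ∀ y x : ℕ, 3 ≤ y → y ≤ x →
    (∀ u, y ≤ u → u ≤ x → |∑ j ∈ range u, Ej n l i (pr j) c| ≤ C₁ * (u : ℝ) ^ β) →
    ∀ s s' : ℝ, 1 < s → s ≤ 2 → 1 < s' → s' ≤ 2 → 1 ≤ (s - 1) * Real.log x → 1 ≤ (s' - 1) * Real.log x →
      |∑' v : HeightOneSpectrum (𝓞 K), dl n l i c s v - ∑' v : HeightOneSpectrum (𝓞 K), dl n l i c s' v| ≤
        C₂ * (|s - s'| * Real.log y + C₁ * (y : ℝ) ^ (β - 1) + ((x : ℝ) ^ (1 - s) + (x : ℝ) ^ (1 - s'))) := by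
  obtain ⟨nK, hnK⟩ := hom_card (𝓞 K)
  obtain ⟨C, hC, hmain⟩ := main_diff hβ0 hβ1
  obtain ⟨Ch, hCh, hhigh⟩ := high_sum K
  have hBT := BT_nonneg n l hl D i
  obtain ⟨W, hW⟩ : ∃ W : ℝ, W = ∑' v : HeightOneSpectrum (𝓞 K), ((Ideal.absNorm v.asIdeal : ℕ) : ℝ) ^ (-(3 / 2 : ℝ)) := ⟨_, rfl⟩
  have hWs : Summable (fun v : HeightOneSpectrum (𝓞 K) => ((Ideal.absNorm v.asIdeal : ℕ) : ℝ) ^ (-(3 / 2 : ℝ))) := nm_summable (by norm_num)
  have hW0 : 0 ≤ W := by
    rw [hW]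
    exact tsum_nonneg fun v => by positivity
  obtain ⟨BT', hBT'⟩ : ∃ B, B = BT n l D i := ⟨_, rfl⟩
  obtain ⟨B, hB⟩ : ∃ B : ℝ, B = nK * (2 * BT n l D i) := ⟨_, rfl⟩
  have hB0 : 0 ≤ B := by rw [hB]; positivity
  refine ⟨C * (B + 1) + 8 * BT n l D i * W + 8 * BT n l D i * Ch, by positivity, fun c C₁ hC₁ y x hy hyx hS s s' hs hs2 hs' hs2' hsx hsx' => ?_⟩
  have hy0 : (0 : ℝ) < y := by exact_mod_cast (by omega : 0 < y)
  have hx0 : (0 : ℝ) < x := by exact_mod_cast (by omega : 0 < x)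
  have hly : 1 ≤ Real.log y := by
    have h3 : (Real.exp 1) ≤ y := by
      have := Real.exp_one_lt_d9
      have h4 : (3 : ℝ) ≤ y := by exact_mod_cast hy
      linarith
    exact (Real.le_log_iff_exp_le hy0).2 h3
  obtain ⟨G, hG⟩ : ∃ G : HeightOneSpectrum (𝓞 K) → ℝ, G = fun v => (TRv n l i 1 v c - (((Rk n l).coeff i : ℕ) : ℝ)) *
      (((Ideal.absNorm v.asIdeal : ℕ) : ℝ) ^ (-s) - ((Ideal.absNorm v.asIdeal : ℕ) : ℝ) ^ (-s')) := ⟨_, rfl⟩
  -- the finite sums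
  have hfin : ∀ T : ℕ, |∑ v ∈ VT K T, dl n l i c s v - ∑ v ∈ VT K T, dl n l i c s' v| ≤
      (C * (B + 1) + 8 * BT n l D i * W + 8 * BT n l D i * Ch) * (|s - s'| * Real.log y + C₁ * (y : ℝ) ^ (β - 1) + ((x : ℝ) ^ (1 - s) + (x : ℝ) ^ (1 - s'))) := by
    intro T
    have e1 : ∑ v ∈ VT K T, dl n l i c s v - ∑ v ∈ VT K T, dl n l i c s' v = ∑ v ∈ VT K T, (dl n l i c s v - dl n l i c s' v - G v) +
        (∑ v ∈ (VT K T).filter (fun v => (Ideal.absNorm v.asIdeal).Prime), G v + ∑ v ∈ (VT K T).filter (fun v => ¬ (Ideal.absNorm v.asIdeal).Prime), G v) := by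
      rw [sum_filter_add_sum_filter_not, ← sum_add_distrib, ← sum_sub_distrib]
      exact sum_congr rfl fun v _ => by ring
    rw [e1]
    have b1 : |∑ v ∈ VT K T, (dl n l i c s v - dl n l i c s' v - G v)| ≤ 8 * BT n l D i * |s - s'| * W := by
      refine (abs_sum_le_sum_abs _ _).trans ?_
      have h1 : ∀ v ∈ VT K T, |dl n l i c s v - dl n l i c s' v - G v| ≤ 8 * BT n l D i * |s - s'| * ((Ideal.absNorm v.asIdeal : ℕ) : ℝ) ^ (-(3 / 2 : ℝ)) := by
        intro v _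
        rw [hG]
        exact dl_diff n l hl hD i c v hs.le hs'.le
      refine (sum_le_sum h1).trans ?_
      rw [← mul_sum, hW]
      exact mul_le_mul_of_nonneg_left (hWs.sum_le_tsum _ fun m _ => by positivity) (by positivity)
    have b2 : |∑ v ∈ (VT K T).filter (fun v => ¬ (Ideal.absNorm v.asIdeal).Prime), G v| ≤ 8 * BT n l D i * |s - s'| * Ch := by
      refine (abs_sum_le_sum_abs _ _).trans ?_
      have h1 : ∀ v ∈ (VT K T).filter (fun v => ¬ (Ideal.absNorm v.asIdeal).Prime), |G v| ≤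
          8 * BT n l D i * |s - s'| * ((Ideal.absNorm v.asIdeal : ℕ) : ℝ) ^ (-(3 / 4 : ℝ)) := by
        intro v _
        obtain ⟨q, hq⟩ : ∃ q : ℝ, q = ((Ideal.absNorm v.asIdeal : ℕ) : ℝ) := ⟨_, rfl⟩
        have hq2 : 2 ≤ q := by rw [hq]; exact nm2 v
        have hq0 : 0 < q := by linarith
        rw [hG]
        show |(TRv n l i 1 v c - (((Rk n l).coeff i : ℕ) : ℝ)) * (((Ideal.absNorm v.asIdeal : ℕ) : ℝ) ^ (-s) - ((Ideal.absNorm v.asIdeal : ℕ) : ℝ) ^ (-s'))| ≤ _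
        rw [← hq, abs_mul]
        have h2 : |TRv n l i 1 v c - (((Rk n l).coeff i : ℕ) : ℝ)| ≤ 2 * BT n l D i := by
          have h3 := TRv_le n l hl hD i 1 one_ne_zero v c
          have h4 := rk_le n l hl D i
          have h5 : |(((Rk n l).coeff i : ℕ) : ℝ)| ≤ BT n l D i := by rwa [Nat.abs_cast]
          refine (abs_sub _ _).trans ?_
          linarith
        have h3 := diff_rpow (x := q) (σ := 1) (s := s) (s' := s') (by linarith) hs.le hs'.le
        have hlog : Real.log q ≤ 4 * q ^ (1 / 4 : ℝ) := by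
          have h2 : 0 < q ^ (1 / 4 : ℝ) := by positivity
          have h3 := Real.log_le_sub_one_of_pos h2
          rw [Real.log_rpow hq0] at h3
          linarith
        have h4 : Real.log q * q ^ (-1 : ℝ) ≤ 4 * q ^ (-(3 / 4 : ℝ)) := by
          have h5 : q ^ (-(3 / 4 : ℝ)) = q ^ (1 / 4 : ℝ) * q ^ (-1 : ℝ) := by
            rw [← Real.rpow_add hq0]
            norm_num
          rw [h5]
          have h6 : 0 < q ^ (-1 : ℝ) := by positivity
          nlinarith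
        have h5 : |q ^ (-s) - q ^ (-s')| ≤ |s - s'| * (4 * q ^ (-(3 / 4 : ℝ))) := by
          refine h3.trans ?_
          exact mul_le_mul_of_nonneg_left h4 (abs_nonneg _)
        refine (mul_le_mul h2 h5 (abs_nonneg _) (by positivity)).trans (le_of_eq ?_)
        ring
      refine (sum_le_sum h1).trans ?_
      rw [← mul_sum]
      exact mul_le_mul_of_nonneg_left (hhigh T) (by positivity)
    have b3 : |∑ v ∈ (VT K T).filter (fun v => (Ideal.absNorm v.asIdeal).Prime), G v| ≤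
        C * (B * (|s - s'| * Real.log y) + C₁ * (y : ℝ) ^ (β - 1) + B * ((x : ℝ) ^ (1 - s) + (x : ℝ) ^ (1 - s'))) := by
      rw [hG, deg1_sum n l i c s s' T]
      exact hmain (fun j => Ej n l i (pr j) c) B C₁ hC₁ (fun j => by
        rw [hB]
        exact Ej_le n l hl D hD i nK hnK (pr j) c) y x hy hyx hS s s' hs hs2 hs' hs2' hsx hsx' _
    have hq1 : 0 ≤ |s - s'| := abs_nonneg _
    have hq2 : 0 ≤ |s - s'| * Real.log y := by positivity
    have hq3 : |s - s'| ≤ |s - s'| * Real.log y := le_mul_of_one_le_right hq1 hly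
    have hq4 : 0 ≤ C₁ * (y : ℝ) ^ (β - 1) := by positivity
    have hq5 : 0 ≤ (x : ℝ) ^ (1 - s) + (x : ℝ) ^ (1 - s') := by positivity
    obtain ⟨a1, ha1⟩ : ∃ a, a = |s - s'| * Real.log y := ⟨_, rfl⟩
    obtain ⟨a2, ha2⟩ : ∃ a, a = C₁ * (y : ℝ) ^ (β - 1) := ⟨_, rfl⟩
    obtain ⟨a3, ha3⟩ : ∃ a, a = (x : ℝ) ^ (1 - s) + (x : ℝ) ^ (1 - s') := ⟨_, rfl⟩
    rw [← ha1, ← ha2, ← ha3] at b3
    rw [← ha1] at hq2 hq3
    rw [← ha2] at hq4
    rw [← ha3] at hq5
    rw [← ha1, ← ha2, ← ha3]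
    have c1 : 8 * BT n l D i * |s - s'| * W ≤ 8 * BT n l D i * W * (a1 + a2 + a3) := by
      have h1 : |s - s'| ≤ a1 + a2 + a3 := by linarith
      have h2 : 0 ≤ 8 * BT n l D i * W := by positivity
      have h3 := mul_le_mul_of_nonneg_left h1 h2
      linarith
    have c2 : 8 * BT n l D i * |s - s'| * Ch ≤ 8 * BT n l D i * Ch * (a1 + a2 + a3) := by
      have h1 : |s - s'| ≤ a1 + a2 + a3 := by linarith
      have h2 : 0 ≤ 8 * BT n l D i * Ch := by positivity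
      have h3 := mul_le_mul_of_nonneg_left h1 h2
      linarith
    have c3 : C * (B * a1 + a2 + B * a3) ≤ C * (B + 1) * (a1 + a2 + a3) := by
      rw [mul_assoc]
      apply mul_le_mul_of_nonneg_left _ hC
      nlinarith [mul_nonneg hB0 hq4]
    refine (abs_add_le _ _).trans ?_
    have h1 := abs_add_le (∑ v ∈ (VT K T).filter (fun v => (Ideal.absNorm v.asIdeal).Prime), G v) (∑ v ∈ (VT K T).filter (fun v => ¬ (Ideal.absNorm v.asIdeal).Prime), G v)
    calc _ ≤ 8 * BT n l D i * W * (a1 + a2 + a3) + (C * (B + 1) * (a1 + a2 + a3) + 8 * BT n l D i * Ch * (a1 + a2 + a3)) := by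
          linarith
      _ = _ := by ring
  have hlim : Tendsto (fun T : ℕ => |∑ v ∈ VT K T, dl n l i c s v - ∑ v ∈ VT K T, dl n l i c s' v|) atTop
      (𝓝 |∑' v : HeightOneSpectrum (𝓞 K), dl n l i c s v - ∑' v : HeightOneSpectrum (𝓞 K), dl n l i c s' v|) := by
    apply Tendsto.abs
    exact ((dl_summable n l hl hD i c hs).hasSum.comp (VT_tendsto K)).sub ((dl_summable n l hl hD i c hs').hasSum.comp (VT_tendsto K))
  exact le_of_tendsto hlim (Eventually.of_forall hfin)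

end

end Pool.Agent.N842.TP
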